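import Pool.Agent.H62.AS.Unf

/-!
# [H62 AS Full] One of `T` separated scales is full

`fullS`: for `e > 0` there is `C` such that for all `ρ` there are `d > 0` and `B`: whenever `C t i ≤ t j ≤ ρ t i` for
`i < j`, `C t i ≤ 1` and `B ≤ t i log M`, then for some `i` ALL words modulo `Q i` and ALL shapes in `[-1, 1] ^ k` occur at
the scale `t i log p_n` for at least `d (t i) ^ D M` of the `n < M`.
-/

set_option autoImplicit false

namespace Pool.Agent.H62.AS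

open Filter Finset Pool.Agent.H82.LS Pool.Agent.H62.VK Pool.Agent.H34.RC Pool.Agent.H62.VW Pool.Agent.H19.AS

theorem shape_transfer {k r K L s Q : ℕ} {w w' : Fin (k + 1) → ℕ} {χ : ℕ → Fin r} {q : Fin r} {x x' : Fin k → ℝ}
    {h h' e1 η μ e : ℝ} {p : ℕ} (hS : ShapeW K L s Q w' χ q x' 2 h' e1 p) (he1 : 0 ≤ e1) (hh' : 0 < h')
    (h1 : h' ≤ h) (h2 : h ≤ 2 * h') (hη : h - h' ≤ η * h) (hx' : ∀ j, |x' j| ≤ 1) (hxx : ∀ j, |x' j - x j| ≤ μ)
    (he : e1 + η + μ ≤ e) (hw : ∀ j, w' j ≡ w j [MOD Q]) : ShapeW K L s Q w χ q x 1 h e p := by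
  have hh : 0 < h := hh'.trans_le h1
  have key : ∀ (j : Fin k) (y : ℝ), |y - x' j * h'| < e1 * h' → |y - x j * h| < e * h := by
    intro j y hy
    have a1 : |x' j * h' - x j * h| ≤ η * h + μ * h := by
      have a2 : x' j * h' - x j * h = -(x' j * (h - h')) + (x' j - x j) * h := by ring
      rw [a2]
      refine (abs_add_le _ _).trans (add_le_add ?_ ?_)
      · rw [abs_neg, abs_mul, abs_of_nonneg (by linarith : 0 ≤ h - h')]
        calc |x' j| * (h - h') ≤ 1 * (h - h') := mul_le_mul_of_nonneg_right (hx' j) (by linarith)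
          _ ≤ η * h := by linarith
      · rw [abs_mul, abs_of_pos hh]
        exact mul_le_mul_of_nonneg_right (hxx j) hh.le
    calc |y - x j * h| = |(y - x' j * h') + (x' j * h' - x j * h)| := by congr 1; ring
      _ ≤ |y - x' j * h'| + |x' j * h' - x j * h| := abs_add_le _ _
      _ < e1 * h' + (η * h + μ * h) := add_lt_add_of_lt_of_le hy a1
      _ ≤ e1 * h + (η * h + μ * h) := by
        have := mul_le_mul_of_nonneg_left h1 he1
        linarith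
      _ = (e1 + η + μ) * h := by ring
      _ ≤ e * h := mul_le_mul_of_nonneg_right he hh.le
  obtain ⟨b1, b2, b3⟩ := hS.congr hw
  refine ⟨b1, fun p' hp hpp hd => ?_, fun j => ?_⟩
  · obtain ⟨h5, j, h6, hj⟩ := b2 p' hp hpp (by linarith)
    exact ⟨h5, j, h6, key j _ hj⟩
  · obtain ⟨Z, hZ, hZ2⟩ := b3 j
    refine ⟨Z, hZ, fun p' hp => ?_⟩
    obtain ⟨a1, a2, a3, a4, a5, a6⟩ := hZ2 p' hp
    exact ⟨a1, a2, a3, a4, a5, key j _ a6⟩

/-- union bound -/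
theorem ncard_ex_le {ι : Type} [Fintype ι] (M : ℕ) (P : ι → ℕ → Prop) :
    (({n : ℕ | n < M ∧ ∃ b, P b n}).ncard : ℝ) ≤ ∑ b, (({n : ℕ | n < M ∧ P b n}).ncard : ℝ) := by
  classical
  obtain ⟨F, hF⟩ : ∃ F : (ℕ → Prop) → Finset ℕ, F = fun R => (range M).filter R := ⟨_, rfl⟩
  have hmem : ∀ R n, n ∈ F R ↔ n < M ∧ R n := fun R n => by rw [hF, mem_filter, mem_range]
  have h1 : ∀ R : ℕ → Prop, ({n : ℕ | n < M ∧ R n}).ncard = (F R).card := fun R => by
    rw [← Set.ncard_coe_finset]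
    congr 1
    ext n
    exact (hmem R n).symm
  rw [h1]
  have h2 : F (fun n => ∃ b, P b n) ⊆ (univ : Finset ι).biUnion (fun b => F (P b)) := by
    intro n hn
    obtain ⟨hn1, b, hb⟩ := (hmem _ n).1 hn
    exact mem_biUnion.2 ⟨b, mem_univ b, (hmem _ n).2 ⟨hn1, hb⟩⟩
  have h3 : ((F (fun n => ∃ b, P b n)).card : ℝ) ≤ ((∑ b, (F (P b)).card : ℕ) : ℝ) := by
    exact_mod_cast (card_le_card h2).trans card_biUnion_le
  refine h3.trans (le_of_eq ?_)
  rw [Nat.cast_sum]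
  exact sum_congr rfl fun b _ => by rw [h1]

/-- a finite net of `[-1, 1] ^ k` -/
theorem exists_net (k : ℕ) {μ : ℝ} (hμ : 0 < μ) : ∃ N : Finset (Fin k → ℝ), (∀ x ∈ N, ∀ j, |x j| ≤ 1) ∧
    ∀ x : Fin k → ℝ, (∀ j, |x j| ≤ 1) → ∃ x' ∈ N, ∀ j, |x' j - x j| ≤ μ := by
  classical
  obtain ⟨t, ht, hfin, hcov⟩ := (isCompact_Icc (a := (fun _ : Fin k => (-1 : ℝ)))
    (b := fun _ => 1)).finite_cover_balls hμ
  refine ⟨hfin.toFinset, fun x hx j => ?_, fun x hx => ?_⟩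
  · have h1 := ht (hfin.mem_toFinset.1 hx)
    exact abs_le.2 ⟨h1.1 j, h1.2 j⟩
  · have h1 : x ∈ Set.Icc (fun _ : Fin k => (-1 : ℝ)) (fun _ => 1) :=
      ⟨fun j => (abs_le.1 (hx j)).1, fun j => (abs_le.1 (hx j)).2⟩
    obtain ⟨x', hx', h2⟩ := Set.mem_iUnion₂.1 (hcov h1)
    refine ⟨x', hfin.mem_toFinset.2 hx', fun j => ?_⟩
    have h3 : dist x x' < μ := h2
    have h4 := dist_le_pi_dist x x' j
    rw [Real.dist_eq] at h4
    rw [abs_sub_comm]
    linarith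

/-- separated scales `t 0 ≪ t 1 ≪ ...` with bounded quotients -/
def ChainS {T : ℕ} (C ρ B : ℝ) (M : ℕ) (t : Fin T → ℝ) : Prop :=
  (∀ i, B ≤ t i * Real.log M ∧ C * t i ≤ 1) ∧ ∀ i j, i < j → C * t i ≤ t j ∧ t j ≤ ρ * t i

theorem fullS (k K r : ℕ) (hk : 1 ≤ k) (hK : 1 ≤ K) :
    ∃ D : ℕ, ∀ (L s : ℕ), 0 < L → Nat.Coprime s L → ∀ (χ : ℕ → Fin r)
      (Q : Fin (100 * r * (k + K - 1)) → ℕ), (∀ i, 0 < Q i) → (∀ i, Nat.Coprime (Q i) L) →
      (∀ i j, i ≠ j → Nat.Coprime (Q i) (Q j)) →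
      ∀ e : ℝ, 0 < e → ∃ C : ℝ, 1 ≤ C ∧ ∀ ρ : ℝ, ∃ d B : ℝ, 0 < d ∧
        ∀ (M : ℕ) (t : Fin (100 * r * (k + K - 1)) → ℝ), ChainS C ρ B M t →
          ∃ i, ∀ w : Fin (k + 1) → ℕ, (∀ j, Nat.Coprime (w j) (Q i)) → ∀ x : Fin k → ℝ, (∀ j, |x j| ≤ 1) →
            ∃ q : Fin r, d * t i ^ D * M ≤ (({n : ℕ | n < M ∧ ShapeW K L s (Q i) w χ q x 1
              (t i * Real.log (Nat.nth Nat.Prime n)) e (Nat.nth Nat.Prime n)}).ncard : ℝ) := by
  classical
  obtain ⟨D, hD⟩ := uni_fin k K r hk hK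
  refine ⟨D, fun L s hL hs χ Q hQ hQL hQQ e he => ?_⟩
  have hr : 0 < r := (χ 0).pos
  have hT0 : 0 < 100 * r * (k + K - 1) := Nat.mul_pos (Nat.mul_pos (by norm_num) hr) (by omega)
  obtain ⟨C0, hC0, hU⟩ := hD L s hL hs χ Q hQ hQL hQQ (e / 8) (by positivity)
  clear hD
  generalize 100 * r * (k + K - 1) = T at *
  have hC00 : 0 < C0 := lt_of_lt_of_le one_pos hC0
  refine ⟨4 * C0, by linarith, fun ρ => ?_⟩
  obtain ⟨ρ', hρd⟩ : ∃ ρ', ρ' = max ρ 1 := ⟨_, rfl⟩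
  have hρ1 : 1 ≤ ρ' := hρd ▸ le_max_right _ _
  have hρρ : ρ ≤ ρ' := hρd ▸ le_max_left _ _
  have hρ0 : 0 < ρ' := by linarith
  -- the nets
  obtain ⟨η, hηd⟩ : ∃ η, η = min (1 / 2) (e / 4) := ⟨_, rfl⟩
  have hη : 0 < η := hηd ▸ lt_min (by norm_num) (by positivity)
  have hη1 : η ≤ 1 / 2 := hηd ▸ min_le_left _ _
  have hη2 : η ≤ e / 4 := hηd ▸ min_le_right _ _
  obtain ⟨lm, hlmd⟩ : ∃ lm, lm = 1 / (2 * C0 * ρ') := ⟨_, rfl⟩
  have hlm : 0 < lm := by rw [hlmd]; positivity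
  obtain ⟨μ, hμd⟩ : ∃ μ, μ = η * lm := ⟨_, rfl⟩
  have hμ : 0 < μ := by rw [hμd]; positivity
  obtain ⟨Nx, hN1, hN2⟩ := exists_net k (μ := e / 4) (by positivity)
  obtain ⟨Wd, hWd⟩ : ∃ Wd : Fin T → Finset (Fin (k + 1) → ℕ), Wd = fun i =>
      Fintype.piFinset (fun _ => range (Q i)) := ⟨_, rfl⟩
  obtain ⟨N, hN⟩ : ∃ N : ℕ, N = ⌊1 / (2 * C0) / μ⌋₊ + 1 := ⟨_, rfl⟩
  obtain ⟨P, hP⟩ : ∃ P : Finset (Fin T → (Fin k → ℝ) × (Fin (k + 1) → ℕ) × ℕ), P =
      Fintype.piFinset (fun i => Nx ×ˢ (Wd i ×ˢ range N)) := ⟨_, rfl⟩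
  -- the constants
  obtain ⟨S, hS⟩ : ∃ S : (Fin T → (Fin k → ℝ) × (Fin (k + 1) → ℕ) × ℕ) → ℝ → ℕ → Prop, S = fun a t n =>
      ∃ (i : Fin T) (q : Fin r), ShapeW K L s (Q i) (a i).2.1 χ q (fun j => 1 / 2 * (a i).1 j) 1
        (2 * (μ * (a i).2.2) * (t * Real.log (Nat.nth Nat.Prime n))) (e / 8) (Nat.nth Nat.Prime n) := ⟨_, rfl⟩
  have hA : ∀ a : Fin T → (Fin k → ℝ) × (Fin (k + 1) → ℕ) × ℕ, ∃ d B : ℝ, 0 < d ∧
      ((∀ i j, |(a i).1 j| ≤ 1) → (∀ i j, Nat.Coprime ((a i).2.1 j) (Q i)) →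
        (∀ i, 0 < (a i).2.2) → (∀ i, C0 * (2 * (μ * (a i).2.2)) ≤ 1) →
        (∀ i j, i < j → C0 * (2 * (μ * (a i).2.2)) ≤ 2 * (μ * (a j).2.2)) →
        ∀ (M : ℕ) (t : ℝ), t ≤ 1 → B ≤ t * Real.log M →
          d * t ^ D * M ≤ (({n : ℕ | n < M ∧ S a t n}).ncard : ℝ)) := by
    intro a
    by_cases hg : (∀ i j, |(a i).1 j| ≤ 1) ∧ (∀ i j, Nat.Coprime ((a i).2.1 j) (Q i)) ∧
        (∀ i, 0 < (a i).2.2) ∧ (∀ i, C0 * (2 * (μ * (a i).2.2)) ≤ 1) ∧
        (∀ i j, i < j → C0 * (2 * (μ * (a i).2.2)) ≤ 2 * (μ * (a j).2.2))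
    · obtain ⟨g1, g2, g3, g4, g5⟩ := hg
      obtain ⟨d, B, hd, h⟩ := hU (fun i => 2 * (μ * (a i).2.2)) (fun i => by
        have : (0 : ℝ) < (a i).2.2 := by exact_mod_cast g3 i
        positivity) g4 g5 (fun i => (a i).2.1) g2 (fun i j => 1 / 2 * (a i).1 j) (fun i j => by
        rw [abs_mul, abs_of_pos (by norm_num : (0 : ℝ) < 1 / 2)]
        linarith [g1 i j])
      refine ⟨d, B, hd, fun _ _ _ _ _ M t ht hB => ?_⟩
      rw [hS]
      exact h M t ht hB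
    · exact ⟨1, 1, one_pos, fun g1 g2 g3 g4 g5 => absurd ⟨g1, g2, g3, g4, g5⟩ hg⟩
  choose df Bf hdf hAf using hA
  obtain ⟨d0, hd0, hd0P⟩ := exists_small P df (fun a _ => hdf a)
  obtain ⟨B0, hB0⟩ : ∃ B0 : ℝ, B0 = ∑ a ∈ P, |Bf a| := ⟨_, rfl⟩
  have hB0P : ∀ a ∈ P, Bf a ≤ B0 := fun a ha => by
    rw [hB0]
    exact (le_abs_self _).trans (Finset.single_le_sum (f := fun a => |Bf a|) (fun b _ => abs_nonneg _) ha)
  have hTr : (0 : ℝ) < T * r := by
    have h1 : (0 : ℝ) < T := by exact_mod_cast hT0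
    have h2 : (0 : ℝ) < r := by exact_mod_cast hr
    positivity
  refine ⟨d0 / (T * r), max 1 B0, by positivity, fun M t ht => ?_⟩
  obtain ⟨ht1, ht2⟩ := ht
  by_contra hcon
  push Not at hcon
  choose w hw x hx hcnt using hcon
  have hlogM : 0 ≤ Real.log M := Real.log_natCast_nonneg M
  have htpos : ∀ i, 0 < t i := fun i => pos_of_scale one_pos ((le_max_left _ _).trans (ht1 i).1)
  -- the largest scale
  obtain ⟨im, him⟩ : ∃ im : Fin T, im = ⟨T - 1, by omega⟩ := ⟨_, rfl⟩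
  have hlast : ∀ i : Fin T, i = im ∨ i < im := by
    intro i
    rw [him]
    rcases lt_or_ge (i : ℕ) (T - 1) with h | h
    · exact Or.inr (Fin.mk_lt_mk.2 h)
    · left
      have := i.2
      exact Fin.ext (by show (i : ℕ) = T - 1; omega)
  have hle : ∀ i, t i ≤ t im := by
    intro i
    rcases hlast i with h | h
    · rw [h]
    · have h1 := (ht2 i im h).1
      have h2 := htpos i
      nlinarith
  have hge : ∀ i, t im ≤ ρ' * t i := by
    intro i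
    have h2 := htpos i
    rcases hlast i with h | h
    · rw [h]
      rw [h] at h2
      nlinarith
    · have h1 := (ht2 i im h).2
      nlinarith
  obtain ⟨τ, hτd⟩ : ∃ τ, τ = 2 * C0 * t im := ⟨_, rfl⟩
  have hτ0 : 0 < τ := by
    rw [hτd]
    have := htpos im
    positivity
  have hτ1 : τ ≤ 1 := by
    rw [hτd]
    have h1 := (ht1 im).2
    have h2 := htpos im
    nlinarith
  have htτ : ∀ i, t i ≤ τ := by
    intro i
    rw [hτd]
    have h1 := hle i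
    have h2 := htpos im
    nlinarith
  -- the discretisation
  obtain ⟨l, hld⟩ : ∃ l : Fin T → ℝ, l = fun i => t i / τ := ⟨_, rfl⟩
  have hlt : ∀ i, l i * τ = t i := fun i => by
    rw [hld]
    field_simp
  have hl0 : ∀ i, 0 < l i := fun i => by
    rw [hld]
    exact div_pos (htpos i) hτ0
  have hl1 : ∀ i, l i ≤ 1 / (2 * C0) := by
    intro i
    rw [hld]
    show t i / τ ≤ 1 / (2 * C0)
    rw [div_le_div_iff₀ hτ0 (by positivity), hτd]
    have := hle i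
    nlinarith
  have hl2 : ∀ i, lm ≤ l i := by
    intro i
    rw [hld, hlmd]
    show 1 / (2 * C0 * ρ') ≤ t i / τ
    rw [div_le_div_iff₀ (by positivity) hτ0, hτd]
    have := hge i
    nlinarith
  have hl3 : ∀ i j, i < j → 4 * C0 * l i ≤ l j := by
    intro i j hij
    have h1 := (ht2 i j hij).1
    rw [← hlt i, ← hlt j] at h1
    by_contra h2
    have h3 := mul_lt_mul_of_pos_right (not_le.1 h2) hτ0
    nlinarith
  obtain ⟨m, hmd⟩ : ∃ m : Fin T → ℕ, m = fun i => ⌊l i / μ⌋₊ := ⟨_, rfl⟩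
  have hm1 : ∀ i, μ * m i ≤ l i := by
    intro i
    have h1 : ((⌊l i / μ⌋₊ : ℕ) : ℝ) ≤ l i / μ := Nat.floor_le (div_nonneg (hl0 i).le hμ.le)
    rw [le_div_iff₀ hμ] at h1
    rw [hmd]
    linarith
  have hm2 : ∀ i, l i - μ * m i ≤ η * l i := by
    intro i
    have h1 : l i / μ < ((⌊l i / μ⌋₊ : ℕ) : ℝ) + 1 := Nat.lt_floor_add_one _
    rw [div_lt_iff₀ hμ] at h1
    have h2 : μ ≤ η * l i := by
      rw [hμd]
      exact mul_le_mul_of_nonneg_left (hl2 i) hη.le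
    rw [hmd]
    show l i - μ * (⌊l i / μ⌋₊ : ℕ) ≤ η * l i
    linarith
  have hm3 : ∀ i, l i ≤ 2 * (μ * m i) := by
    intro i
    have h1 := hm2 i
    have h2 := hl0 i
    nlinarith
  have hm4 : ∀ i, 0 < m i := by
    intro i
    have h1 := hm3 i
    have h2 := hl0 i
    rcases Nat.eq_zero_or_pos (m i) with h3 | h3
    · rw [h3, Nat.cast_zero, mul_zero, mul_zero] at h1
      linarith
    · exact h3
  have hm5 : ∀ i, m i < N := by
    intro i
    rw [hN, Nat.lt_succ_iff, hmd]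
    exact Nat.floor_le_floor (div_le_div_of_nonneg_right (hl1 i) hμ.le)
  choose x' hx'1 hx'2 using fun i => hN2 (x i) (hx i)
  obtain ⟨a, had⟩ : ∃ a : Fin T → (Fin k → ℝ) × (Fin (k + 1) → ℕ) × ℕ, a = fun i =>
      (x' i, (fun j => w i j % Q i), m i) := ⟨_, rfl⟩
  have a1 : ∀ i, (a i).1 = x' i := fun i => by rw [had]
  have a2 : ∀ i, (a i).2.1 = fun j => w i j % Q i := fun i => by rw [had]
  have a3 : ∀ i, (a i).2.2 = m i := fun i => by rw [had]
  have haP : a ∈ P := by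
    rw [hP, Fintype.mem_piFinset]
    intro i
    rw [mem_product, mem_product, a1, a2, a3, hWd, Fintype.mem_piFinset]
    exact ⟨hx'1 i, fun j => mem_range.2 (Nat.mod_lt _ (hQ i)), mem_range.2 (hm5 i)⟩
  have hlow := hAf a (fun i j => by rw [a1]; exact hN1 _ (hx'1 i) j)
    (fun i j => by
      rw [a2]
      show Nat.gcd (w i j % Q i) (Q i) = 1
      rw [← Nat.gcd_rec, Nat.gcd_comm]
      exact hw i j)
    (fun i => by rw [a3]; exact hm4 i)
    (fun i => by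
      rw [a3]
      have h1 := hm1 i
      have h2 := hl1 i
      rw [le_div_iff₀ (by positivity)] at h2
      nlinarith)
    (fun i j hij => by
      rw [a3, a3]
      have h1 := hm1 i
      have h2 := hl3 i j hij
      have h3 := hm3 j
      nlinarith) M τ hτ1 (by
      have h1 := hB0P a haP
      have h2 : B0 ≤ t im * Real.log M := (le_max_right _ _).trans (ht1 im).1
      have h3 : t im * Real.log M ≤ τ * Real.log M := mul_le_mul_of_nonneg_right (htτ im) hlogM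
      linarith)
  have hM0 : (0 : ℝ) ≤ M := Nat.cast_nonneg M
  have hsub : (({n : ℕ | n < M ∧ S a τ n}).ncard : ℝ) ≤ (({n : ℕ | n < M ∧ ∃ b : Fin T × Fin r,
      ShapeW K L s (Q b.1) (w b.1) χ b.2 (x b.1) 1 (t b.1 * Real.log (Nat.nth Nat.Prime n)) e
        (Nat.nth Nat.Prime n)}).ncard : ℝ) := by
    refine Nat.cast_le.2 (Set.ncard_le_ncard ?_ ((Set.finite_lt_nat M).subset fun n hn => hn.1))
    rintro n ⟨hn, hSn⟩
    rw [hS] at hSn
    obtain ⟨i, q, h⟩ := hSn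
    refine ⟨hn, (i, q), ?_⟩
    have hlp : 0 < Real.log (Nat.nth Nat.Prime n) :=
      Real.log_pos (by exact_mod_cast (Nat.prime_nth_prime n).one_lt)
    rw [a1, a2, a3] at h
    have h2 : ShapeW K L s (Q i) (fun j => w i j % Q i) χ q (x' i) 2
        (1 / 2 * (2 * (μ * m i) * (τ * Real.log (Nat.nth Nat.Prime n)))) (e / 4) (Nat.nth Nat.Prime n) := by
      refine shape_rescale (v := 1 / 2) ?_
      rw [show (1 / 2 : ℝ) * 2 = 1 by norm_num, show 1 / 2 * (e / 4) = e / 8 by ring]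
      exact h
    have hm0 : (0 : ℝ) < m i := by exact_mod_cast hm4 i
    have e1 : 1 / 2 * (2 * (μ * m i) * (τ * Real.log (Nat.nth Nat.Prime n))) =
        μ * m i * τ * Real.log (Nat.nth Nat.Prime n) := by ring
    rw [e1] at h2
    refine shape_transfer (e1 := e / 4) (η := η) (μ := e / 4) h2 (by positivity) (by positivity) ?_ ?_ ?_
      (fun j => hN1 _ (hx'1 i) j) (fun j => hx'2 i j) (by linarith) (fun j => Nat.mod_modEq _ _)
    · rw [← hlt i]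
      exact mul_le_mul_of_nonneg_right (mul_le_mul_of_nonneg_right (hm1 i) hτ0.le) hlp.le
    · rw [← hlt i]
      have h3 := mul_le_mul_of_nonneg_right (mul_le_mul_of_nonneg_right (hm3 i) hτ0.le) hlp.le
      linarith
    · rw [← hlt i]
      have h3 := mul_le_mul_of_nonneg_right (mul_le_mul_of_nonneg_right (hm2 i) hτ0.le) hlp.le
      show l i * τ * Real.log (Nat.nth Nat.Prime n) - μ * m i * τ * Real.log (Nat.nth Nat.Prime n) ≤
        η * (l i * τ * Real.log (Nat.nth Nat.Prime n))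
      linarith
  have hnon : (univ : Finset (Fin T × Fin r)).Nonempty := ⟨(im, χ 0), mem_univ _⟩
  have hlt2 : ∑ b : Fin T × Fin r, (({n : ℕ | n < M ∧
      ShapeW K L s (Q b.1) (w b.1) χ b.2 (x b.1) 1 (t b.1 * Real.log (Nat.nth Nat.Prime n)) e
        (Nat.nth Nat.Prime n)}).ncard : ℝ) < ∑ _b : Fin T × Fin r, d0 / (T * r) * τ ^ D * M := by
    refine sum_lt_sum_of_nonempty hnon fun b _ => (hcnt b.1 b.2).trans_le ?_
    refine mul_le_mul_of_nonneg_right (mul_le_mul_of_nonneg_left ?_ (by positivity)) hM0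
    exact pow_le_pow_left₀ (htpos b.1).le (htτ b.1) D
  rw [sum_const, card_univ, Fintype.card_prod, Fintype.card_fin, Fintype.card_fin, nsmul_eq_mul] at hlt2
  have h5 : ((T * r : ℕ) : ℝ) * (d0 / (T * r) * τ ^ D * M) = d0 * τ ^ D * M := by
    push_cast
    field_simp
  rw [h5] at hlt2
  have h6 : d0 * τ ^ D * M ≤ df a * τ ^ D * M :=
    mul_le_mul_of_nonneg_right (mul_le_mul_of_nonneg_right (hd0P a haP).le (by positivity)) hM0
  have h7 := ncard_ex_le M (fun (b : Fin T × Fin r) n =>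
    ShapeW K L s (Q b.1) (w b.1) χ b.2 (x b.1) 1 (t b.1 * Real.log (Nat.nth Nat.Prime n)) e
        (Nat.nth Nat.Prime n))
  linarith

end Pool.Agent.H62.AS
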