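import Pool.Agent.H62.AS.Shp
import Pool.Agent.H34.AS.Fin

/-!
# [H62 AS Fin] Clauses (1) and (2) with one exponent `D`
-/

set_option autoImplicit false

namespace Pool.Agent.H62.AS

open Filter Finset Pool.Agent.H82.LS Pool.Agent.H62.VK Pool.Agent.H34.RC Pool.Agent.H62.VW Pool.Agent.H19.AS

theorem pow_anti_scale {D D' : ℕ} (hD : D ≤ D') {d t : ℝ} (hd : 0 < d) (ht : 0 < t) (ht1 : t ≤ 1) (M : ℕ) :
    d * t ^ D' * M ≤ d * t ^ D * M := by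
  have h1 : t ^ D' ≤ t ^ D := pow_le_pow_of_le_one ht.le ht1 hD
  have h2 : (0 : ℝ) ≤ M := Nat.cast_nonneg M
  exact mul_le_mul_of_nonneg_right (mul_le_mul_of_nonneg_left h1 hd.le) h2

theorem PosAlongS.anti {D D' : ℕ} (hD : D ≤ D') {A : Set (ℕ × ℝ)} {P : ℝ → ℕ → Prop} (h : PosAlongS D A P) :
    PosAlongS D' A P := by
  obtain ⟨d, hd, hs⟩ := h
  refine ⟨d, hd, fun B => ?_⟩
  obtain ⟨a, ⟨ha, ha2⟩, h1, h2⟩ := hs (max B 1)
  have ht : 0 < a.2 := pos_of_scale one_pos ((le_max_right _ _).trans h2)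
  exact ⟨a, ⟨ha, (pow_anti_scale hD hd ht h1 a.1).trans ha2⟩, h1, (le_max_left _ _).trans h2⟩

theorem LowerS.anti {D D' : ℕ} (hD : D ≤ D') {P : ℝ → ℕ → Prop} (h : LowerS D P) : LowerS D' P := by
  obtain ⟨d, B, hd, hs⟩ := h
  refine ⟨d, max B 1, hd, fun M t ht hB => ?_⟩
  have ht0 : 0 < t := pos_of_scale one_pos ((le_max_right _ _).trans hB)
  exact (pow_anti_scale hD hd ht0 ht M).trans (hs M t ht ((le_max_left _ _).trans hB))

theorem LowerS.mono {D : ℕ} {P P' : ℝ → ℕ → Prop} (h : LowerS D P) (hP : ∀ t : ℝ, 0 < t → ∀ n, P t n → P' t n) :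
    LowerS D P' := by
  obtain ⟨d, B, hd, hs⟩ := h
  refine ⟨d, max B 1, hd, fun M t ht hB => ?_⟩
  have ht0 : 0 < t := pos_of_scale one_pos ((le_max_right _ _).trans hB)
  exact (hs M t ht ((le_max_left _ _).trans hB)).trans (Nat.cast_le.2 (Set.ncard_le_ncard
    (fun n hn => ⟨hn.1, hP t ht0 n hn.2⟩) ((Set.finite_lt_nat M).subset fun n hn => hn.1)))

theorem GoodWS.anti {D D' : ℕ} (hD : D ≤ D') {r k K L s : ℕ} {χ : ℕ → Fin r} {A : Set (ℕ × ℝ)} {Q : ℕ}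
    (h : GoodWS D k K L s χ A Q) : GoodWS D' k K L s χ A Q := by
  obtain ⟨c, hc, h⟩ := h
  refine ⟨c, hc, fun w hw x hx => ?_⟩
  obtain ⟨q, hq⟩ := h w hw x hx
  exact ⟨q, fun e he => PosAlongS.anti hD (hq e he)⟩

/-- a finite family of moduli, words, shapes as a sequence -/
theorem shape_finS (k K r : ℕ) (hk : 1 ≤ k) (hK : 1 ≤ K) :
    ∃ D : ℕ, ∀ (L s : ℕ), 0 < L → Nat.Coprime s L → ∀ (χ : ℕ → Fin r)
      (Q : Fin (100 * r * (k + K - 1)) → ℕ), (∀ i, 0 < Q i) → (∀ i, Nat.Coprime (Q i) L) →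
      (∀ i j, i ≠ j → Nat.Coprime (Q i) (Q j)) →
      ∀ W : Fin (100 * r * (k + K - 1)) → Fin (k + 1) → ℕ, (∀ i j, Nat.Coprime (W i j) (Q i)) →
      ∀ (x : Fin (100 * r * (k + K - 1)) → Fin k → ℝ) (R e : ℝ), 0 < R → (∀ i j, |x i j| ≤ R) → 0 < e →
      ∃ c : ℝ, 0 < c ∧ LowerS D (fun t n => ∃ (i : Fin (100 * r * (k + K - 1))) (q : Fin r) (h : ℝ),
          c * (t * Real.log (Nat.nth Nat.Prime n)) < h ∧ h < e * (t * Real.log (Nat.nth Nat.Prime n)) ∧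
          ShapeW K L s (Q i) (W i) χ q (x i) R h e (Nat.nth Nat.Prime n)) := by
  classical
  obtain ⟨D, hD⟩ := shape_genS Pool.Agent.H34.AS.thmS k K r hk hK
  refine ⟨D, fun L s hL hs χ Q hQ hQL hQQ W hW x R e hR hx he => ?_⟩
  generalize hT : 100 * r * (k + K - 1) = T at *
  obtain ⟨Qf, hQf⟩ : ∃ Qf : ℕ → ℕ, Qf = fun i => if h : i < T then Q ⟨i, h⟩ else 1 := ⟨_, rfl⟩
  obtain ⟨Wf, hWf⟩ : ∃ Wf : ℕ → Fin (k + 1) → ℕ, Wf = fun i => if h : i < T then W ⟨i, h⟩ else fun _ => 1 :=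
    ⟨_, rfl⟩
  obtain ⟨xf, hxf⟩ : ∃ xf : ℕ → Fin k → ℝ, xf = fun i => if h : i < T then x ⟨i, h⟩ else fun _ => 0 :=
    ⟨_, rfl⟩
  have q1 : ∀ i (h : i < T), Qf i = Q ⟨i, h⟩ := fun i h => by rw [hQf]; exact dif_pos h
  have q2 : ∀ i, ¬ i < T → Qf i = 1 := fun i h => by rw [hQf]; exact dif_neg h
  have w1 : ∀ i (h : i < T), Wf i = W ⟨i, h⟩ := fun i h => by rw [hWf]; exact dif_pos h
  have w2 : ∀ i, ¬ i < T → Wf i = fun _ => 1 := fun i h => by rw [hWf]; exact dif_neg h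
  have x1 : ∀ i (h : i < T), xf i = x ⟨i, h⟩ := fun i h => by rw [hxf]; exact dif_pos h
  have x2 : ∀ i, ¬ i < T → xf i = fun _ => 0 := fun i h => by rw [hxf]; exact dif_neg h
  obtain ⟨c, hc, h⟩ := hD L s hL hs χ Qf
    (fun i => by
      by_cases h : i < T
      · rw [q1 i h]; exact hQ _
      · rw [q2 i h]; exact one_pos)
    (fun i => by
      by_cases h : i < T
      · rw [q1 i h]; exact hQL _
      · rw [q2 i h]; exact Nat.coprime_one_left _)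
    (fun i j hij => by
      by_cases h : i < T
      · by_cases h' : j < T
        · rw [q1 i h, q1 j h']
          exact hQQ _ _ (fun h3 => hij (Fin.mk.inj h3))
        · rw [q2 j h']; exact Nat.coprime_one_right _
      · rw [q2 i h]; exact Nat.coprime_one_left _)
    Wf
    (fun i j => by
      by_cases h : i < T
      · rw [q1 i h, w1 i h]; exact hW _ _
      · rw [q2 i h]; exact Nat.coprime_one_right _)
    xf R e hR
    (fun i j => by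
      by_cases h : i < T
      · rw [x1 i h]; exact hx _ _
      · rw [x2 i h, abs_zero]; exact hR.le) he
  refine ⟨c, hc, LowerS.mono h fun t _ n hn => ?_⟩
  obtain ⟨i, hi, q, l, h1, h2, h3⟩ := hn
  rw [q1 i hi, w1 i hi, x1 i hi] at h3
  exact ⟨⟨i, hi⟩, q, l, h1, h2, h3⟩

/-- clauses (1) and (2) -/
theorem thm12 (k K r : ℕ) (hk : 1 ≤ k) (hK : 1 ≤ K) :
    ∃ D : ℕ, ∀ (L s : ℕ), 0 < L → Nat.Coprime s L → ∀ (χ : ℕ → Fin r),
      (∀ A : Set (ℕ × ℝ), Scales A →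
        (∀ Q : Fin (100 * r * (k + K - 1)) → ℕ, (∀ i, 0 < Q i) → (∀ i, Nat.Coprime (Q i) L) →
          (∀ i j, i ≠ j → Nat.Coprime (Q i) (Q j)) → ∃ i, GoodWS D k K L s χ A (Q i)) ∧
        ∃ Q₀ : ℕ, 0 < Q₀ ∧ ∀ Q : ℕ, 0 < Q → Nat.Coprime Q Q₀ → GoodWS D k K L s χ A Q) ∧
      ∀ (Q : Fin (100 * r * (k + K - 1)) → ℕ), (∀ i, 0 < Q i) → (∀ i, Nat.Coprime (Q i) L) →
        (∀ i j, i ≠ j → Nat.Coprime (Q i) (Q j)) →
      ∀ W : Fin (100 * r * (k + K - 1)) → Fin (k + 1) → ℕ, (∀ i j, Nat.Coprime (W i j) (Q i)) →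
      ∀ (x : Fin (100 * r * (k + K - 1)) → Fin k → ℝ) (R e : ℝ), 0 < R → (∀ i j, |x i j| ≤ R) → 0 < e →
      ∃ c : ℝ, 0 < c ∧ LowerS D (fun t n => ∃ (i : Fin (100 * r * (k + K - 1))) (q : Fin r) (h : ℝ),
          c * (t * Real.log (Nat.nth Nat.Prime n)) < h ∧ h < e * (t * Real.log (Nat.nth Nat.Prime n)) ∧
          ShapeW K L s (Q i) (W i) χ q (x i) R h e (Nat.nth Nat.Prime n)) := by
  obtain ⟨D1, h1⟩ := thmWS Pool.Agent.H34.AS.thmS k K r hk hK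
  obtain ⟨D2, h2⟩ := shape_finS k K r hk hK
  refine ⟨D1 + D2, fun L s hL hs χ => ⟨fun A hA => ?_, fun Q hQ hQL hQQ W hW x R e hR hx he => ?_⟩⟩
  · obtain ⟨h3, Q₀, h4, h5⟩ := h1 L s hL hs χ A hA
    refine ⟨fun Q hQ hQL hQQ => ?_, Q₀, h4, fun Q hQ hQ0 => (h5 Q hQ hQ0).anti (Nat.le_add_right _ _)⟩
    obtain ⟨i, hi⟩ := h3 Q hQ hQL hQQ
    exact ⟨i, hi.anti (Nat.le_add_right _ _)⟩
  · obtain ⟨c, hc, h⟩ := h2 L s hL hs χ Q hQ hQL hQQ W hW x R e hR hx he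
    exact ⟨c, hc, LowerS.anti (Nat.le_add_left _ _) h⟩

end Pool.Agent.H62.AS
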