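import Pool.Agent.H62.AS.Full
import Pool.Agent.H82.AS.Three

/-!
# [H62 AS Pair] Pairs of consecutive gaps at one of `200` separated scales

`pairS`: all words of three classes modulo `Q i` and all pairs of gaps `(u, v) t i log p_n`, `0 ≤ u, v ≤ 1`, occur for some
`i`, up to the error `e t i log p_n`, for at least `d (t i) ^ D M` of the `n < M`.
-/

set_option autoImplicit false

namespace Pool.Agent.H62.AS

open Filter Finset Pool.Agent.H82.LS Pool.Agent.H62.VK Pool.Agent.H34.RC Pool.Agent.H62.VW Pool.Agent.H19.AS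
  Pool.Agent.H82.AS Pool.Agent.H34.VW

/-- three consecutive primes from a shape, at one point; the bound for the index depends on `e` only -/
theorem pair_point {e : ℝ} (he : 0 < e) : ∃ δ : ℝ, 0 < δ ∧ δ ≤ 1 / 4 ∧ ∀ᶠ i : ℕ in atTop, ∀ t : ℝ, 0 < t →
    ∀ (L s Q : ℕ) (w : Fin 3 → ℕ) (χ : ℕ → Fin 1) (q : Fin 1) (u v : ℝ), 0 ≤ u → u ≤ 1 → 0 ≤ v → v ≤ 1 →
    ShapeW 1 L s Q ![w 1, w 0, w 2] χ q ![-(max u δ), max v δ] 2 (t * Real.log (Nat.nth Nat.Prime i)) (δ / 2)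
      (Nat.nth Nat.Prime i) →
    1 ≤ i ∧ |(gap (i - 1) : ℝ) - u * (t * Real.log (Nat.nth Nat.Prime (i - 1)))| <
        e * (t * Real.log (Nat.nth Nat.Prime (i - 1))) ∧
      |(gap (i - 1 + 1) : ℝ) - v * (t * Real.log (Nat.nth Nat.Prime (i - 1)))| <
        e * (t * Real.log (Nat.nth Nat.Prime (i - 1))) ∧
      ∀ j : Fin 3, Nat.nth Nat.Prime (i - 1 + (j : ℕ)) ≡ s [MOD L] ∧
        Nat.nth Nat.Prime (i - 1 + (j : ℕ)) ≡ w j [MOD Q] := by
  obtain ⟨δ, hδd⟩ : ∃ δ, δ = min (e / 8) (1 / 4) := ⟨_, rfl⟩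
  have hδ : 0 < δ := hδd ▸ lt_min (by positivity) (by norm_num)
  have hδ1 : δ ≤ e / 8 := hδd ▸ min_le_left _ _
  have hδ2 : δ ≤ 1 / 4 := hδd ▸ min_le_right _ _
  obtain ⟨η, hηd⟩ : ∃ η, η = min (1 : ℝ) (e / 4) := ⟨_, rfl⟩
  have hη : 0 < η := hηd ▸ lt_min one_pos (by positivity)
  have hη1 : η ≤ 1 := hηd ▸ min_le_left _ _
  have hη2 : η ≤ e / 4 := hηd ▸ min_le_right _ _
  refine ⟨δ, hδ, hδ2, ?_⟩
  filter_upwards [log_pred η hη] with i hi t ht0 L s Q w χ q u v hu0 hu1' hv0 hv1' hS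
  obtain ⟨hi1, hlog', hle, hge⟩ := hi
  have hlog : 0 < Real.log (Nat.nth Nat.Prime i) := hlog'.trans_le hle
  obtain ⟨u', hu'd⟩ : ∃ u', u' = max u δ := ⟨_, rfl⟩
  obtain ⟨v', hv'd⟩ : ∃ v', v' = max v δ := ⟨_, rfl⟩
  rw [← hu'd, ← hv'd] at hS
  have hu1 : u ≤ u' := hu'd ▸ le_max_left _ _
  have hu2 : δ ≤ u' := hu'd ▸ le_max_right _ _
  have hu3 : u' ≤ u + δ := hu'd ▸ max_le (by linarith) (by linarith)
  have hu4 : u' ≤ 1 := hu'd ▸ max_le hu1' (by linarith)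
  have hv1 : v ≤ v' := hv'd ▸ le_max_left _ _
  have hv2 : δ ≤ v' := hv'd ▸ le_max_right _ _
  have hv3 : v' ≤ v + δ := hv'd ▸ max_le (by linarith) (by linarith)
  have hv4 : v' ≤ 1 := hv'd ▸ max_le hv1' (by linarith)
  obtain ⟨k1, k2, k3, k4, k5, k6⟩ := three_shw (by positivity) (by linarith) (by linarith) (by linarith) (by linarith)
    (mul_pos ht0 hlog) (shw_of_shapeW hS)
  refine ⟨k1, ?_⟩
  have hlog : 0 < t * Real.log (Nat.nth Nat.Prime i) := mul_pos ht0 hlog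
  have hlog' : 0 < t * Real.log (Nat.nth Nat.Prime (i - 1)) := mul_pos ht0 hlog'
  have hle : t * Real.log (Nat.nth Nat.Prime (i - 1)) ≤ t * Real.log (Nat.nth Nat.Prime i) :=
    mul_le_mul_of_nonneg_left hle ht0.le
  have hge : t * Real.log (Nat.nth Nat.Prime i) ≤ (1 + η) * (t * Real.log (Nat.nth Nat.Prime (i - 1))) := by
    have h9 := mul_le_mul_of_nonneg_left hge ht0.le
    linarith
  generalize t * Real.log (Nat.nth Nat.Prime i) = l at hlog hle hge k5 k6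
  generalize t * Real.log (Nat.nth Nat.Prime (i - 1)) = l' at hlog' hle hge
  have main : ∀ g a a' : ℝ, 0 ≤ a → a ≤ 1 → a ≤ a' → a' ≤ a + δ → |g - a' * l| < δ / 2 * l → |g - a * l'| < e * l' := by
    intro g a a' ha0 ha1 haa haa' hg
    have q1 : |a' * l - a * l'| ≤ δ * l + a * (η * l') := by
      rw [abs_of_nonneg (by nlinarith)]
      nlinarith
    have q2 : l ≤ 2 * l' := by nlinarith
    calc |g - a * l'| = |(g - a' * l) + (a' * l - a * l')| := by congr 1; ring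
      _ ≤ |g - a' * l| + |a' * l - a * l'| := abs_add_le _ _
      _ < e * l' := by
        have q3 : δ / 2 * l ≤ δ * l' := by nlinarith
        have q4 : δ * l ≤ 2 * δ * l' := by nlinarith
        have q5 : a * (η * l') ≤ e / 4 * l' := by
          have : a * η ≤ e / 4 := by nlinarith
          nlinarith
        have q6 : δ * l' ≤ e / 8 * l' := mul_le_mul_of_nonneg_right hδ1 hlog'.le
        nlinarith
  have ei : i - 1 + 1 = i := by omega
  refine ⟨?_, ?_, ?_⟩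
  · exact main _ u u' hu0 (by linarith) hu1 hu3 k5
  · rw [ei]
    exact main _ v v' hv0 (by linarith) hv1 hv3 k6
  · intro j
    fin_cases j
    · exact k2
    · show Nat.nth Nat.Prime (i - 1 + 1) ≡ s [MOD L] ∧ Nat.nth Nat.Prime (i - 1 + 1) ≡ w 1 [MOD Q]
      rw [ei]
      exact k3
    · show Nat.nth Nat.Prime (i - 1 + 2) ≡ s [MOD L] ∧ Nat.nth Nat.Prime (i - 1 + 2) ≡ w 2 [MOD Q]
      rw [show i - 1 + 2 = i + 1 by omega]
      exact k4

theorem pairS : ∃ D : ℕ, ∀ L s : ℕ, 0 < L → Nat.Coprime s L → ∀ Q : Fin 200 → ℕ, (∀ i, 0 < Q i) →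
    (∀ i, Nat.Coprime (Q i) L) → (∀ i j, i ≠ j → Nat.Coprime (Q i) (Q j)) →
    ∀ e : ℝ, 0 < e → ∃ C : ℝ, 1 ≤ C ∧ ∀ ρ : ℝ, ∃ d B : ℝ, 0 < d ∧
      ∀ (M : ℕ) (t : Fin 200 → ℝ), ChainS C ρ B M t → ∃ i, ∀ w : Fin 3 → ℕ, (∀ j, Nat.Coprime (w j) (Q i)) →
        ∀ u v : ℝ, 0 ≤ u → u ≤ 1 → 0 ≤ v → v ≤ 1 →
          d * t i ^ D * M ≤ (({n : ℕ | n < M ∧
            |(gap n : ℝ) - u * (t i * Real.log (Nat.nth Nat.Prime n))| < e * (t i * Real.log (Nat.nth Nat.Prime n)) ∧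
            |(gap (n + 1) : ℝ) - v * (t i * Real.log (Nat.nth Nat.Prime n))| <
              e * (t i * Real.log (Nat.nth Nat.Prime n)) ∧
            ∀ j : Fin 3, Nat.nth Nat.Prime (n + (j : ℕ)) ≡ s [MOD L] ∧
              Nat.nth Nat.Prime (n + (j : ℕ)) ≡ w j [MOD Q i]}).ncard : ℝ) := by
  obtain ⟨D, hD⟩ := fullS 2 1 1 one_le_two le_rfl
  refine ⟨D, fun L s hL hs Q hQ hQL hQQ e he => ?_⟩
  obtain ⟨δ, hδ, hδ1, hpt⟩ := pair_point he
  obtain ⟨i0, hi0⟩ := eventually_atTop.1 hpt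
  obtain ⟨C, hC, h⟩ := hD L s hL hs (fun _ => (0 : Fin 1)) Q hQ hQL hQQ (δ / 4) (by positivity)
  refine ⟨2 * C, by linarith, fun ρ => ?_⟩
  obtain ⟨d, B, hd, h⟩ := h ρ
  obtain ⟨B1, hB1, hB2⟩ := large_scale D (2 * i0 / d)
  refine ⟨d / 2, max B (max 1 B1), by positivity, fun M t ht => ?_⟩
  obtain ⟨ht1, ht2⟩ := ht
  have htpos : ∀ i, 0 < t i := fun i =>
    pos_of_scale one_pos ((le_max_left _ _).trans ((le_max_right _ _).trans (ht1 i).1))
  have hch : ChainS C ρ B M (fun i => 2 * t i) := by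
    refine ⟨fun i => ?_, fun i j hij => ?_⟩
    · obtain ⟨h1, h2⟩ := ht1 i
      have h3 : B ≤ t i * Real.log M := (le_max_left _ _).trans h1
      have h4 : 0 ≤ t i * Real.log M := mul_nonneg (htpos i).le (Real.log_natCast_nonneg _)
      exact ⟨by show B ≤ 2 * t i * Real.log M; linarith, by show C * (2 * t i) ≤ 1; linarith⟩
    · obtain ⟨h1, h2⟩ := ht2 i j hij
      have h3 := htpos j
      exact ⟨by show C * (2 * t i) ≤ 2 * t j; linarith, by show 2 * t j ≤ ρ * (2 * t i); linarith⟩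
  obtain ⟨i, hi⟩ := h M (fun i => 2 * t i) hch
  refine ⟨i, fun w hw u v hu0 hu1 hv0 hv1 => ?_⟩
  have hu2 : 0 < max u δ := lt_max_of_lt_right hδ
  have hv2 : 0 < max v δ := lt_max_of_lt_right hδ
  have hu3 : max u δ ≤ 1 := max_le hu1 (by linarith)
  have hv3 : max v δ ≤ 1 := max_le hv1 (by linarith)
  obtain ⟨q, hq⟩ := hi ![w 1, w 0, w 2] (by
    intro j
    fin_cases j
    · exact hw 1
    · exact hw 0
    · exact hw 2) (fun j => 1 / 2 * (![-(max u δ), max v δ] : Fin 2 → ℝ) j) (by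
    intro j
    rw [abs_mul, abs_of_pos (by norm_num : (0 : ℝ) < 1 / 2)]
    fin_cases j
    · show 1 / 2 * |(-(max u δ) : ℝ)| ≤ 1
      rw [abs_neg, abs_of_pos hu2]
      linarith
    · show 1 / 2 * |(max v δ : ℝ)| ≤ 1
      rw [abs_of_pos hv2]
      linarith)
  have hti : t i ≤ 1 := by
    have h1 := (ht1 i).2
    have h2 := htpos i
    nlinarith
  obtain ⟨-, hbig⟩ := hB2 M (t i) hti ((le_max_right _ _).trans ((le_max_right _ _).trans (ht1 i).1))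
  rw [div_le_iff₀ hd] at hbig
  have h5 := shift_card (P := fun n => ShapeW 1 L s (Q i) ![w 1, w 0, w 2] (fun _ => (0 : Fin 1)) q
      (fun j => 1 / 2 * (![-(max u δ), max v δ] : Fin 2 → ℝ) j) 1
      (2 * t i * Real.log (Nat.nth Nat.Prime n)) (δ / 4) (Nat.nth Nat.Prime n))
    (P' := fun n => |(gap n : ℝ) - u * (t i * Real.log (Nat.nth Nat.Prime n))| <
        e * (t i * Real.log (Nat.nth Nat.Prime n)) ∧
      |(gap (n + 1) : ℝ) - v * (t i * Real.log (Nat.nth Nat.Prime n))| <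
        e * (t i * Real.log (Nat.nth Nat.Prime n)) ∧
      ∀ j : Fin 3, Nat.nth Nat.Prime (n + (j : ℕ)) ≡ s [MOD L] ∧
        Nat.nth Nat.Prime (n + (j : ℕ)) ≡ w j [MOD Q i]) (i0 := i0) (M := M) (by
      intro n hn hP
      refine hi0 n hn (t i) (htpos i) L s (Q i) w (fun _ => (0 : Fin 1)) q u v hu0 hu1 hv0 hv1 ?_
      have h6 : ShapeW 1 L s (Q i) ![w 1, w 0, w 2] (fun _ => (0 : Fin 1)) q
          (![-(max u δ), max v δ] : Fin 2 → ℝ) 2 (1 / 2 * (2 * t i * Real.log (Nat.nth Nat.Prime n))) (δ / 2)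
          (Nat.nth Nat.Prime n) := by
        refine shape_rescale (v := 1 / 2) ?_
        rw [show (1 / 2 : ℝ) * 2 = 1 by norm_num, show 1 / 2 * (δ / 2) = δ / 4 by ring]
        exact hP
      rw [show 1 / 2 * (2 * t i * Real.log (Nat.nth Nat.Prime n)) = t i * Real.log (Nat.nth Nat.Prime n) by ring]
        at h6
      exact h6)
  have hM0 : (0 : ℝ) ≤ M := Nat.cast_nonneg M
  have h7 : d * t i ^ D * M ≤ d * (2 * t i) ^ D * M := by
    refine mul_le_mul_of_nonneg_right (mul_le_mul_of_nonneg_left ?_ hd.le) hM0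
    exact pow_le_pow_left₀ (htpos i).le (by linarith [htpos i]) D
  have h8 : d * (2 * t i) ^ D * (M : ℝ) ≤ i0 + _ := hq.trans h5
  linarith

end Pool.Agent.H62.AS
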