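import Pool.Agent.H62.AS.Fin
import Pool.Agent.H62.AS.Pair

/-!
# [H62 AS Fin3] Clauses (1) and (2) of the third version with one exponent `D`
-/

set_option autoImplicit false

namespace Pool.Agent.H62.AS

open Filter Finset Pool.Agent.H82.LS Pool.Agent.H62.VK Pool.Agent.H34.RC Pool.Agent.H62.VW Pool.Agent.H19.AS

/-- clauses (1) and (2): along any family of scales; at one of `T` separated scales -/
theorem thm13 (k K r : ℕ) (hk : 1 ≤ k) (hK : 1 ≤ K) :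
    ∃ D : ℕ, ∀ (L s : ℕ), 0 < L → Nat.Coprime s L → ∀ (χ : ℕ → Fin r),
      (∀ A : Set (ℕ × ℝ), Scales A →
        (∀ Q : Fin (100 * r * (k + K - 1)) → ℕ, (∀ i, 0 < Q i) → (∀ i, Nat.Coprime (Q i) L) →
          (∀ i j, i ≠ j → Nat.Coprime (Q i) (Q j)) → ∃ i, GoodWS D k K L s χ A (Q i)) ∧
        ∃ Q₀ : ℕ, 0 < Q₀ ∧ ∀ Q : ℕ, 0 < Q → Nat.Coprime Q Q₀ → GoodWS D k K L s χ A Q) ∧
      ∀ (Q : Fin (100 * r * (k + K - 1)) → ℕ), (∀ i, 0 < Q i) → (∀ i, Nat.Coprime (Q i) L) →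
        (∀ i j, i ≠ j → Nat.Coprime (Q i) (Q j)) →
      ∀ e : ℝ, 0 < e → ∃ C : ℝ, 1 ≤ C ∧ ∀ ρ : ℝ, ∃ d B : ℝ, 0 < d ∧
        ∀ (M : ℕ) (t : Fin (100 * r * (k + K - 1)) → ℝ), ChainS C ρ B M t →
          ∃ i, ∀ w : Fin (k + 1) → ℕ, (∀ j, Nat.Coprime (w j) (Q i)) → ∀ x : Fin k → ℝ, (∀ j, |x j| ≤ 1) →
            ∃ q : Fin r, d * t i ^ D * M ≤ (({n : ℕ | n < M ∧ ShapeW K L s (Q i) w χ q x 1
              (t i * Real.log (Nat.nth Nat.Prime n)) e (Nat.nth Nat.Prime n)}).ncard : ℝ) := by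
  obtain ⟨D1, h1⟩ := thmWS Pool.Agent.H34.AS.thmS k K r hk hK
  obtain ⟨D2, h2⟩ := fullS k K r hk hK
  refine ⟨D1 + D2, fun L s hL hs χ => ⟨fun A hA => ?_, fun Q hQ hQL hQQ e he => ?_⟩⟩
  · obtain ⟨h3, Q₀, h4, h5⟩ := h1 L s hL hs χ A hA
    refine ⟨fun Q hQ hQL hQQ => ?_, Q₀, h4, fun Q hQ hQ0 => (h5 Q hQ hQ0).anti (Nat.le_add_right _ _)⟩
    obtain ⟨i, hi⟩ := h3 Q hQ hQL hQQ
    exact ⟨i, hi.anti (Nat.le_add_right _ _)⟩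
  · obtain ⟨C, hC, h⟩ := h2 L s hL hs χ Q hQ hQL hQQ e he
    refine ⟨C, hC, fun ρ => ?_⟩
    obtain ⟨d, B, hd, h⟩ := h ρ
    refine ⟨d, max B 1, hd, fun M t ht => ?_⟩
    have htpos : ∀ i, 0 < t i := fun i => pos_of_scale one_pos ((le_max_right _ _).trans (ht.1 i).1)
    have ht1 : ∀ i, t i ≤ 1 := fun i => by
      have h1 := (ht.1 i).2
      have h2 := htpos i
      nlinarith
    obtain ⟨i, hi⟩ := h M t ⟨fun i => ⟨(le_max_left _ _).trans (ht.1 i).1, (ht.1 i).2⟩, ht.2⟩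
    refine ⟨i, fun w hw x hx => ?_⟩
    obtain ⟨q, hq⟩ := hi w hw x hx
    exact ⟨q, (pow_anti_scale (Nat.le_add_left _ _) hd (htpos i) (ht1 i) M).trans hq⟩

end Pool.Agent.H62.AS
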