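import Pool.Agent.H62.VW.Main
import Pool.Agent.H34.AS.Df
import Pool.Agent.H19.AS.Win

/-!
# [H62 AS Fl] From windows at all scales to primes at all scales

`lower_shapeS`: trees and many good windows of every length `H0 ≤ H ≤ lam log x` give, for ALL `M` and all `t ≤ 1` with
`t log M` large, at least `d t ^ D M` indices `a < M` such that one of finitely many shapes occurs near `p_a` at the scale
`t log p_a`.
-/

set_option autoImplicit false

namespace Pool.Agent.H62.AS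

open Filter Finset Pool.Agent.H82.LS Pool.Agent.H62.VK Pool.Agent.H34.RC Pool.Agent.H62.VW Pool.Agent.H19.AS

open Classical in
theorem lower_shapeS {k m K r n D : ℕ} {ww : ℝ} (hr : 0 < r) (L s Q0 : ℕ) (Qf : ℕ → ℕ)
    (W : ℕ → Fin (k + 1) → ℕ) (ρ : Fin m → ℕ) (lab : Fin m → ℕ → ℕ) (al be w : Fin m → ℝ)
    (S : Finset (ℕ × Cf k)) (htree : IsTl r K n ww W lab al be w 1 (S : Set (ℕ × Cf k)))
    (hS : ∀ p ∈ S, p.1 < n ∧ 0 < p.2.2.1 ∧ 0 < p.2.2.2 ∧ ∀ j, |p.2.1 j| ≤ p.2.2.1 / 2)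
    (hLQ : L ∣ Q0) (hρL : ∀ d, ρ d ≡ s [MOD L]) (hQQ : ∀ i < n, Qf i ∣ Q0)
    (hρQ : ∀ d, ∀ i < n, ρ d ≡ lab d i [MOD Qf i]) (χ : ℕ → Fin r) (lam δ θ T H0 : ℝ) (hlam : 0 < lam)
    (hδ : 0 < δ) (hθ : 0 < θ) (hT : 1 ≤ T)
    (h : ∀ᶠ x : ℝ in atTop, ∀ H : ℝ, H0 ≤ H → H ≤ lam * Real.log x →
      δ * (H / Real.log x) ^ D * x ≤ (((range (⌊T * x⌋₊ + 1)).filter
        (fun N : ℕ => θ * x ≤ (N : ℝ) ∧ GoodC Q0 ρ al be (fun d => w d / r) H N)).card : ℝ)) :
    LowerS D (fun t a => ∃ b ∈ S ×ˢ (univ : Finset (Fin r)),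
      ShapeW K L s (Qf b.1.1) (W b.1.1) χ b.2 (fun j => lam * b.1.2.1 j) (lam * (b.1.2.2.1 / 2))
        (t * Real.log (Nat.nth Nat.Prime a)) (2 * lam * b.1.2.2.2) (Nat.nth Nat.Prime a)) := by
  refine lower_of_windowsS D _ T lam (δ * lam ^ D) (H0 / lam) hT hlam.le (by positivity) ?_
  have hsc : ∀ᶠ x : ℝ in atTop, ∀ b ∈ S, ∀ p : ℕ, θ * x ≤ p → (p : ℝ) ≤ T * x + lam * Real.log x →
      ∀ t : ℝ, 0 < t → ∀ q,
      ShapeW K L s (Qf b.1) (W b.1) χ q b.2.1 b.2.2.1 (lam * (t * Real.log x)) b.2.2.2 p →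
      ShapeW K L s (Qf b.1) (W b.1) χ q (fun j => lam * b.2.1 j) (lam * (b.2.2.1 / 2)) (t * Real.log p)
        (2 * lam * b.2.2.2) p := by
    refine (eventually_all_finset S).2 fun b hb => ?_
    obtain ⟨-, hb1, hb2, hb3⟩ := hS b hb
    obtain ⟨η, hηd⟩ : ∃ η, η = min (1 / 4) (b.2.2.2 / (2 * b.2.2.1)) := ⟨_, rfl⟩
    have hη : 0 < η := hηd ▸ lt_min (by norm_num) (by positivity)
    have hη1 : η ≤ 1 / 4 := hηd ▸ min_le_left _ _
    have hη2 : b.2.2.1 / 2 * η ≤ b.2.2.2 / 4 := by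
      have h1 : η ≤ b.2.2.2 / (2 * b.2.2.1) := hηd ▸ min_le_right _ _
      rw [le_div_iff₀ (by positivity)] at h1
      linarith
    filter_upwards [log_near θ T lam η hθ hT hlam hη, eventually_gt_atTop (1 : ℝ)]
      with x hx hx1 p h1 h2 t ht q h3
    have hlog : 0 < Real.log x := Real.log_pos hx1
    have hnear : |t * Real.log p - t * Real.log x| ≤ η * (t * Real.log x) := by
      rw [← mul_sub, abs_mul, abs_of_pos ht]
      calc t * |Real.log p - Real.log x| ≤ t * (η * Real.log x) :=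
            mul_le_mul_of_nonneg_left (hx p h1 h2) ht.le
        _ = η * (t * Real.log x) := by ring
    exact shape_scale hlam (by positivity) hb2 hb3 hη1 hη2 (mul_pos ht hlog) hnear
      (by rw [show 2 * (b.2.2.1 / 2) = b.2.2.1 by ring]; exact h3)
  filter_upwards [h, hsc, eventually_gt_atTop (1 : ℝ)] with x hx hsc hx1 t ht ht1 htx
  have hx0 : 0 < x := by linarith
  have hlog : 0 < Real.log x := Real.log_pos hx1
  have hℓ : 0 < lam * (t * Real.log x) := mul_pos hlam (mul_pos ht hlog)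
  have hH0 : H0 ≤ lam * (t * Real.log x) := by
    rw [div_le_iff₀ hlam] at htx
    linarith
  have hH1 : lam * (t * Real.log x) ≤ lam * Real.log x := by
    apply mul_le_mul_of_nonneg_left _ hlam.le
    nlinarith
  have hx2 := hx _ hH0 hH1
  refine ⟨_, le_trans (le_of_eq ?_) hx2, fun N hN => ?_⟩
  · have h1 : lam * (t * Real.log x) / Real.log x = lam * t := by field_simp
    rw [h1, mul_pow]
    ring
  · rw [mem_filter, mem_range, Nat.lt_succ_iff] at hN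
    obtain ⟨h1, h2, h3⟩ := hN
    have hN1 : (N : ℝ) ≤ T * x := (Nat.le_floor_iff (by positivity)).1 h1
    obtain ⟨a, h4, h5, b, hb, q, h6⟩ := good_shape hr L s Q0 Qf W ρ lab al be w (S : Set (ℕ × Cf k)) htree
      (fun b hb => (hS b hb).1) hLQ hρL hQQ hρQ χ _ hℓ N h3
    have h10 : (N : ℝ) ≤ Nat.nth Nat.Prime a := by exact_mod_cast h4
    have h11 : (Nat.nth Nat.Prime a : ℝ) ≤ N + lam * Real.log x := h5.trans (by linarith)
    exact ⟨hN1, a, ⟨(b, q), mem_product.2 ⟨hb, mem_univ q⟩,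
      hsc b hb _ (h2.trans h10) (by linarith) t ht q h6⟩, h4, h11⟩

end Pool.Agent.H62.AS
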