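import Pool.Agent.H62.AS.Fl

/-!
# [H62 AS Main] THEOREM W at all scales

Of any `100 r (k + K - 1)` pairwise coprime moduli prime to `L` one, `Q`, is good along the family `A` of scales: there is `c > 0`
such that for ALL words `w` of `k + 1` reduced classes modulo `Q` and all `x` in `[-c, c] ^ k` there is a colour `q` such that
for every `e > 0` the `n` with `ShapeW K L s Q w χ q x c (t log p_n) e p_n` have the frequency `≥ d t ^ D` along `A`; `D`
depends only on `k, K, r`.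
-/

set_option autoImplicit false

namespace Pool.Agent.H62.AS

open Filter Finset Pool.Agent.H82.LS Pool.Agent.H62.VK Pool.Agent.H34.RC Pool.Agent.H62.VW Pool.Agent.H19.AS

theorem pos_of_scale {t : ℝ} {M : ℕ} {B : ℝ} (hB : 0 < B) (h : B ≤ t * Real.log M) : 0 < t := by
  have h1 : 0 ≤ Real.log M := Real.log_natCast_nonneg M
  by_contra h2
  have h3 : t * Real.log M ≤ 0 := mul_nonpos_of_nonpos_of_nonneg (not_lt.1 h2) h1
  linarith

theorem posAlongS_mono {D : ℕ} {A : Set (ℕ × ℝ)} {P P' : ℝ → ℕ → Prop}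
    (h : ∀ t : ℝ, 0 < t → ∀ n, P t n → P' t n) (hP : PosAlongS D A P) : PosAlongS D A P' := by
  obtain ⟨d, hd, hs⟩ := hP
  refine ⟨d, hd, fun B => ?_⟩
  obtain ⟨a, ⟨ha, ha2⟩, h1, h2⟩ := hs (max B 1)
  have ht : 0 < a.2 := pos_of_scale one_pos ((le_max_right _ _).trans h2)
  refine ⟨a, ⟨ha, ha2.trans (Nat.cast_le.2 (Set.ncard_le_ncard (fun n hn => ⟨hn.1, h _ ht n hn.2⟩)
    ((Set.finite_lt_nat a.1).subset fun n hn => hn.1)))⟩, h1, (le_max_left _ _).trans h2⟩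

/-- the modulus `Q` is good -/
def GoodWS {r : ℕ} (D k K L s : ℕ) (χ : ℕ → Fin r) (A : Set (ℕ × ℝ)) (Q : ℕ) : Prop :=
  ∃ c : ℝ, 0 < c ∧ ∀ w : Fin (k + 1) → ℕ, (∀ j, Nat.Coprime (w j) Q) →
    ∀ x : Fin k → ℝ, (∀ j, |x j| ≤ c) → ∃ q : Fin r, ∀ e : ℝ, 0 < e →
      PosAlongS D A (fun t n => ShapeW K L s Q w χ q x c (t * Real.log (Nat.nth Nat.Prime n)) e
        (Nat.nth Nat.Prime n))

/-- `c` after `w` -/
theorem thmWS0 (hT : Pool.Agent.H34.AS.ThmS) (k K r : ℕ) (hk : 1 ≤ k) (hK : 1 ≤ K) :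
    ∃ D : ℕ, ∀ (L s : ℕ), 0 < L → Nat.Coprime s L → ∀ (χ : ℕ → Fin r) (A : Set (ℕ × ℝ)), Scales A →
    ∀ (Q : ℕ → ℕ), (∀ i, 0 < Q i) → (∀ i, Nat.Coprime (Q i) L) →
    (∀ i j, i ≠ j → Nat.Coprime (Q i) (Q j)) →
    ∃ i < 100 * r * (k + K - 1), ∀ w : Fin (k + 1) → ℕ, (∀ j, Nat.Coprime (w j) (Q i)) → ∃ c : ℝ, 0 < c ∧
      ∀ x : Fin k → ℝ, (∀ j, |x j| ≤ c) → ∃ q : Fin r, ∀ e : ℝ, 0 < e →
        PosAlongS D A (fun t n => ShapeW K L s (Q i) w χ q x c (t * Real.log (Nat.nth Nat.Prime n)) e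
          (Nat.nth Nat.Prime n)) := by
  classical
  obtain ⟨T, hTd⟩ : ∃ T : ℕ, T = 100 * r * (k + K - 1) := ⟨_, rfl⟩
  obtain ⟨m, f, -⟩ : ∃ (m : ℕ) (_ : Fin m ≃ Ndk k T), True := ⟨_, (Fintype.equivFin (Ndk k T)).symm, trivial⟩
  obtain ⟨D, hTS⟩ := hT m
  refine ⟨D, ?_⟩
  intro L s hL hs χ A hA Q hQ hQL hQQ
  rw [← hTd]
  by_contra hcon
  push Not at hcon
  have hr : 0 < r := (χ 0).pos
  have hr0 : (0 : ℝ) < r := by exact_mod_cast hr
  -- the bad words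
  have hW : ∀ i, ∃ w : Fin (k + 1) → ℕ, (∀ j, Nat.Coprime (w j) (Q i)) ∧ (i < T → ∀ c : ℝ, 0 < c →
      ∃ x : Fin k → ℝ, (∀ j, |x j| ≤ c) ∧ ∀ q : Fin r, ∃ e : ℝ, 0 < e ∧
        ¬ PosAlongS D A (fun t n => ShapeW K L s (Q i) w χ q x c (t * Real.log (Nat.nth Nat.Prime n)) e
          (Nat.nth Nat.Prime n))) := by
    intro i
    by_cases hi : i < T
    · obtain ⟨w, hw, h⟩ := hcon i hi
      exact ⟨w, hw, fun _ => h⟩
    · exact ⟨fun _ => 1, fun _ => Nat.coprime_one_left _, fun h => absurd h hi⟩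
  choose W hW1 hW2 using hW
  obtain ⟨Dk, hDk⟩ : ∃ Dk : ℕ, Dk = k + K - 1 := ⟨_, rfl⟩
  have hD1 : 1 ≤ Dk := by omega
  have hD0 : (0 : ℝ) < Dk := by exact_mod_cast hD1
  have hDr : (k : ℝ) + K - 1 = Dk := by
    rw [hDk, Nat.cast_sub (by omega)]
    push_cast
    ring
  obtain ⟨w, hwd⟩ : ∃ w : ℝ, w = 1 / Dk := ⟨_, rfl⟩
  have hw0 : 0 ≤ w := by rw [hwd]; positivity
  have hw : w * (k + K - 1) = 1 := by
    rw [hDr, hwd]
    field_simp
  have hsum : 100 ≤ ∑ d, wtk k w T (f d) / r := by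
    rw [← Finset.sum_div, Equiv.sum_comp f (wtk k w T), sum_wtk hk, le_div_iff₀ hr0, hwd, mul_one_div,
      le_div_iff₀ hD0]
    have h1 : (100 * r * Dk : ℕ) ≤ T := by
      rw [hDk, hTd]
    exact_mod_cast h1
  obtain ⟨Q0, hQ0⟩ : ∃ Q0 : ℕ, Q0 = L * ∏ i ∈ range T, Q i := ⟨_, rfl⟩
  have hQ0pos : 0 < Q0 := by
    rw [hQ0]
    exact Nat.mul_pos hL (Finset.prod_pos fun i _ => hQ i)
  -- the classes of the cells
  have hlab : ∀ d : Fin m, ∀ i, Nat.Coprime (labk k W T (f d) i) (Q i) := fun d i =>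
    labk_prop (G := fun i a => Nat.Coprime a (Q i)) (fun i => Nat.coprime_one_left _)
      (fun i j => hW1 i j) T (f d) i
  have hρ := fun d : Fin m => exists_rho L s hs Q hQL hQQ (labk k W T (f d)) (hlab d) T
  choose ρ hρ1 hρ2 hρ3 using hρ
  obtain ⟨lam, hlam, -, hC⟩ := hTS (fun d => wtk k w T (f d) / r)
    (fun d => div_nonneg (wtk_nonneg hw0 _ _) hr0.le) hsum Q0 hQ0pos
  have hC := hC ρ (by rw [hQ0]; exact hρ3)
  obtain ⟨Bad, hBad⟩ : ∃ Bad : ℕ → (Fin k → ℝ) → ℝ → ℝ → Prop, Bad = fun i x c e => ∀ q : Fin r,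
      ¬ PosAlongS D A (fun t n => ShapeW K L s (Q i) (W i) χ q (fun j => lam * x j) (lam * c)
        (t * Real.log (Nat.nth Nat.Prime n)) (2 * lam * e) (Nat.nth Nat.Prime n)) := ⟨_, rfl⟩
  have htl : ∀ t : ℝ, 0 < t → ∀ n, 0 ≤ t * Real.log (Nat.nth Nat.Prime n) := fun t ht n =>
    mul_nonneg ht.le (log_nth n)
  have hanti : ∀ i x c e e', e' ≤ e → Bad i x c e → Bad i x c e' := by
    intro i x c e e' hee hb
    rw [hBad] at hb ⊢
    intro q hpos
    refine hb q (posAlongS_mono (fun t ht n hn => hn.mono (htl t ht n) le_rfl ?_) hpos)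
    exact mul_le_mul_of_nonneg_left hee (by positivity)
  have hbad : ∀ i < T, ∀ c : ℝ, 0 < c → ∃ (x : Fin k → ℝ) (e : ℝ), (∀ j, |x j| ≤ c) ∧ 0 < e ∧ Bad i x c e := by
    intro i hi c hc
    obtain ⟨x, hx, h⟩ := hW2 i hi (lam * c) (mul_pos hlam hc)
    choose e he h using h
    have hne : (univ : Finset (Fin r)).Nonempty := ⟨χ 0, mem_univ _⟩
    obtain ⟨e0, he0⟩ : ∃ e0 : ℝ, e0 = univ.inf' hne e := ⟨_, rfl⟩
    have he0pos : 0 < e0 := by
      rw [he0, Finset.lt_inf'_iff]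
      exact fun q _ => he q
    have he0le : ∀ q, e0 ≤ e q := fun q => he0 ▸ Finset.inf'_le e (mem_univ q)
    refine ⟨fun j => x j / lam, e0 / (2 * lam), fun j => ?_, by positivity, ?_⟩
    · rw [abs_div, abs_of_pos hlam, div_le_iff₀ hlam]
      linarith [hx j]
    · rw [hBad]
      intro q hpos
      refine h q (posAlongS_mono (fun t ht n hn => ?_) hpos)
      have h2 : (fun j => lam * (x j / lam)) = x := by
        funext j
        field_simp
      have h3 : 2 * lam * (e0 / (2 * lam)) = e0 := by field_simp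
      rw [h2, h3] at hn
      exact hn.mono (htl t ht n) le_rfl (he0le q)
  obtain ⟨lo, hi, S, hS, htree⟩ := treel_bad r hk hw0 hw W T Bad hanti hbad T le_rfl 1 one_pos
  have htree' := htree.reindex f
  obtain ⟨δ, θ, T', H0, hδ, hθ, hT', hx⟩ := hC (fun i => lo (f i)) (fun i => hi (f i)) htree'.1 htree'.2.1
  have hQ0i : ∀ i < T, Q i ∣ Q0 := fun i hi => by
    rw [hQ0]
    exact (dvd_prod_of_mem Q (mem_range.2 hi)).trans (Dvd.intro_left _ rfl)
  have hlow := lower_shapeS hr L s Q0 Q W ρ (fun d => labk k W T (f d)) _ _ (fun d => wtk k w T (f d)) S htree'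
    (fun p hp => ⟨(hS p hp).1, (hS p hp).2.1, (hS p hp).2.2.2.1, (hS p hp).2.2.2.2.1⟩)
    (by rw [hQ0]; exact Dvd.intro _ rfl) hρ1 hQ0i hρ2 χ lam δ θ T' H0 hlam hδ hθ hT' hx
  obtain ⟨b, hb, hU⟩ := union_alongS D A hA (S ×ˢ (univ : Finset (Fin r)))
    (fun b t a => ShapeW K L s (Q b.1.1) (W b.1.1) χ b.2 (fun j => lam * b.1.2.1 j) (lam * (b.1.2.2.1 / 2))
        (t * Real.log (Nat.nth Nat.Prime a)) (2 * lam * b.1.2.2.2) (Nat.nth Nat.Prime a)) hlow
  have h4 := (hS b.1 (mem_product.1 hb).1).2.2.2.2.2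
  rw [hBad] at h4
  exact h4 b.2 hU

/-- the words modulo `Q` are finite in number: `c` before `w` -/
theorem goodWS_of {r : ℕ} (D k K L s : ℕ) (χ : ℕ → Fin r) (A : Set (ℕ × ℝ)) (Q : ℕ) (hQ : 0 < Q)
    (h : ∀ w : Fin (k + 1) → ℕ, (∀ j, Nat.Coprime (w j) Q) → ∃ c : ℝ, 0 < c ∧
      ∀ x : Fin k → ℝ, (∀ j, |x j| ≤ c) → ∃ q : Fin r, ∀ e : ℝ, 0 < e →
        PosAlongS D A (fun t n => ShapeW K L s Q w χ q x c (t * Real.log (Nat.nth Nat.Prime n)) e
          (Nat.nth Nat.Prime n))) : GoodWS D k K L s χ A Q := by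
  classical
  have h1 : ∀ w : Fin (k + 1) → Fin Q, ∃ c : ℝ, 0 < c ∧ ((∀ j, Nat.Coprime (w j : ℕ) Q) →
      ∀ x : Fin k → ℝ, (∀ j, |x j| ≤ c) → ∃ q : Fin r, ∀ e : ℝ, 0 < e →
        PosAlongS D A (fun t n => ShapeW K L s Q (fun j => (w j : ℕ)) χ q x c
          (t * Real.log (Nat.nth Nat.Prime n)) e (Nat.nth Nat.Prime n))) := by
    intro w
    by_cases hw : ∀ j, Nat.Coprime (w j : ℕ) Q
    · obtain ⟨c, hc, h2⟩ := h (fun j => (w j : ℕ)) hw
      exact ⟨c, hc, fun _ => h2⟩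
    · exact ⟨1, one_pos, fun h2 => absurd h2 hw⟩
  choose c hc h1 using h1
  have hne : (univ : Finset (Fin (k + 1) → Fin Q)).Nonempty := ⟨fun _ => ⟨0, hQ⟩, mem_univ _⟩
  refine ⟨univ.inf' hne c, ?_, ?_⟩
  · rw [Finset.lt_inf'_iff]
    exact fun w _ => hc w
  · intro w hw x hx
    obtain ⟨w', hw'⟩ : ∃ w' : Fin (k + 1) → Fin Q, w' = fun j => ⟨w j % Q, Nat.mod_lt _ hQ⟩ := ⟨_, rfl⟩
    have hval : ∀ j, ((w' j : Fin Q) : ℕ) = w j % Q := fun j => by rw [hw']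
    have hle : univ.inf' hne c ≤ c w' := Finset.inf'_le c (mem_univ w')
    obtain ⟨q, hq⟩ := h1 w' (fun j => by
      rw [hval]
      show Nat.gcd (w j % Q) Q = 1
      rw [← Nat.gcd_rec, Nat.gcd_comm]
      exact hw j) x (fun j => (hx j).trans hle)
    refine ⟨q, fun e he => posAlongS_mono (fun t ht n hn => ?_) (hq e he)⟩
    refine (hn.mono (mul_nonneg ht.le (log_nth n)) hle le_rfl).congr fun j => ?_
    rw [hval]
    exact Nat.mod_modEq _ _

/-- THEOREM W at all scales -/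
theorem thmWS (hT : Pool.Agent.H34.AS.ThmS) (k K r : ℕ) (hk : 1 ≤ k) (hK : 1 ≤ K) :
    ∃ D : ℕ, ∀ (L s : ℕ), 0 < L → Nat.Coprime s L → ∀ (χ : ℕ → Fin r) (A : Set (ℕ × ℝ)), Scales A →
      (∀ Q : Fin (100 * r * (k + K - 1)) → ℕ, (∀ i, 0 < Q i) → (∀ i, Nat.Coprime (Q i) L) →
        (∀ i j, i ≠ j → Nat.Coprime (Q i) (Q j)) → ∃ i, GoodWS D k K L s χ A (Q i)) ∧
      ∃ Q₀ : ℕ, 0 < Q₀ ∧ ∀ Q : ℕ, 0 < Q → Nat.Coprime Q Q₀ → GoodWS D k K L s χ A Q := by
  classical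
  obtain ⟨D, hD⟩ := thmWS0 hT k K r hk hK
  refine ⟨D, fun L s hL hs χ A hA => ?_⟩
  have hone : ∀ Q : Fin (100 * r * (k + K - 1)) → ℕ, (∀ i, 0 < Q i) → (∀ i, Nat.Coprime (Q i) L) →
        (∀ i j, i ≠ j → Nat.Coprime (Q i) (Q j)) → ∃ i, GoodWS D k K L s χ A (Q i) := by
    intro Q hQ hQL hQQ
    obtain ⟨Qf, hQf⟩ : ∃ Qf : ℕ → ℕ, Qf = fun i => if h : i < 100 * r * (k + K - 1) then Q ⟨i, h⟩ else 1 :=
      ⟨_, rfl⟩
    have h1 : ∀ i (h : i < 100 * r * (k + K - 1)), Qf i = Q ⟨i, h⟩ := fun i h => by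
      rw [hQf]
      exact dif_pos h
    have h2 : ∀ i, ¬ i < 100 * r * (k + K - 1) → Qf i = 1 := fun i h => by
      rw [hQf]
      exact dif_neg h
    obtain ⟨i, hi, h⟩ := hD L s hL hs χ A hA Qf
      (fun i => by
        by_cases h : i < 100 * r * (k + K - 1)
        · rw [h1 i h]
          exact hQ _
        · rw [h2 i h]
          exact one_pos)
      (fun i => by
        by_cases h : i < 100 * r * (k + K - 1)
        · rw [h1 i h]
          exact hQL _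
        · rw [h2 i h]
          exact Nat.coprime_one_left _)
      (fun i j hij => by
        by_cases h : i < 100 * r * (k + K - 1)
        · by_cases h' : j < 100 * r * (k + K - 1)
          · rw [h1 i h, h1 j h']
            exact hQQ _ _ (fun h3 => hij (Fin.mk.inj h3))
          · rw [h2 j h']
            exact Nat.coprime_one_right _
        · rw [h2 i h]
          exact Nat.coprime_one_left _)
    refine ⟨⟨i, hi⟩, goodWS_of D k K L s χ A _ (hQ _) ?_⟩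
    rw [h1 i hi] at h
    exact h
  refine ⟨hone, ?_⟩
  by_contra hcon
  push Not at hcon
  -- a family of bad moduli, one after the other
  have hstep : ∀ n : ℕ, ∃ Q : Fin n → ℕ, (∀ i, 0 < Q i) ∧ (∀ i, Nat.Coprime (Q i) L) ∧
      (∀ i j, i ≠ j → Nat.Coprime (Q i) (Q j)) ∧ ∀ i, ¬ GoodWS D k K L s χ A (Q i) := by
    intro n
    induction n with
    | zero => exact ⟨fun i => i.elim0, fun i => i.elim0, fun i => i.elim0, fun i => i.elim0, fun i => i.elim0⟩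
    | succ n ih =>
      obtain ⟨Q, h1, h2, h3, h4⟩ := ih
      obtain ⟨Q', h5, h6, h7⟩ := hcon (L * ∏ i, Q i)
        (Nat.mul_pos hL (Finset.prod_pos fun i _ => h1 i))
      have h8 : Nat.Coprime Q' L := h6.coprime_dvd_right (Dvd.intro _ rfl)
      have h9 : ∀ i, Nat.Coprime Q' (Q i) := fun i =>
        h6.coprime_dvd_right ((dvd_prod_of_mem Q (mem_univ i)).trans (Dvd.intro_left _ rfl))
      refine ⟨Fin.cons Q' Q, ?_, ?_, ?_, ?_⟩
      · intro i
        refine Fin.cases ?_ (fun i => ?_) i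
        · exact h5
        · exact h1 i
      · intro i
        refine Fin.cases ?_ (fun i => ?_) i
        · exact h8
        · exact h2 i
      · intro i j
        refine Fin.cases ?_ (fun i => ?_) i
        · refine Fin.cases ?_ (fun j => ?_) j
          · exact fun h => absurd rfl h
          · exact fun _ => h9 j
        · refine Fin.cases ?_ (fun j => ?_) j
          · exact fun _ => (h9 i).symm
          · exact fun hij => h3 i j (fun h => hij (by rw [h]))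
      · intro i
        refine Fin.cases ?_ (fun i => ?_) i
        · exact h7
        · exact h4 i
  obtain ⟨Q, h1, h2, h3, h4⟩ := hstep (100 * r * (k + K - 1))
  obtain ⟨i, hi⟩ := hone Q h1 h2 h3
  exact h4 i hi

end Pool.Agent.H62.AS
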