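import Pool.Agent.H62.AS.Fin
import Pool.Agent.H82.AS.Three

/-!
# [H62 AS Rat] Clause (3): quotients of consecutive gaps, with classes, uniformly in all scales (from H82/AS/Three `ratioS`)
-/

set_option autoImplicit false

namespace Pool.Agent.H62.AS

open Filter Finset Pool.Agent.H82.LS Pool.Agent.H62.VK Pool.Agent.H34.RC Pool.Agent.H62.VW Pool.Agent.H19.AS
  Pool.Agent.H82.AS Pool.Agent.H34.VW

theorem ratio_shift {D L s T : ℕ} {χ : ℕ → Fin 1} {Q : Fin T → ℕ} {W : Fin T → Fin 3 → ℕ} {τ : Fin T → ℝ}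
    {e c' κ R : ℝ} (hτ : ∀ i, 0 < τ i) (he : 0 < e) (hc' : 0 < c') (hκ : 0 < κ) (hκ1 : κ ≤ 1 / 4)
    (hκ2 : ∀ i, κ ≤ τ i / 4) (hκ3 : κ ≤ e / 4) (hκ4 : ∀ i, κ * (4 * (1 + τ i)) ≤ e)
    (hR : ∀ i, 2 + 2 * τ i ≤ R)
    (h : LowerS D (fun t n => ∃ (i : Fin T) (q : Fin 1) (h : ℝ), c' * (t * Real.log (Nat.nth Nat.Prime n)) < h ∧
      h < κ * (t * Real.log (Nat.nth Nat.Prime n)) ∧
      ShapeW 1 L s (Q i) ![W i 1, W i 0, W i 2] χ q ![-1, τ i] R h κ (Nat.nth Nat.Prime n))) :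
    LowerS D (fun t n => ∃ i, |(Pool.Agent.H82.LS.gap (n + 1) : ℝ) / Pool.Agent.H82.LS.gap n - τ i| < e ∧
      c' / 2 * (t * Real.log (Nat.nth Nat.Prime n)) < (Pool.Agent.H82.LS.gap n : ℝ) ∧
      (Pool.Agent.H82.LS.gap n : ℝ) < e * (t * Real.log (Nat.nth Nat.Prime n)) ∧
      ∀ j : Fin 3, Nat.nth Nat.Prime (n + (j : ℕ)) ≡ s [MOD L] ∧
        Nat.nth Nat.Prime (n + (j : ℕ)) ≡ W i j [MOD Q i]) := by
  refine LowerS.shift h ?_
  filter_upwards [log_pred 1 one_pos] with i hi t ht0 ht1 hS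
  obtain ⟨hi1, hlog', hle, hge⟩ := hi
  obtain ⟨ν, q, h, hh1, hh2, hS⟩ := hS
  have hlog : 0 < Real.log (Nat.nth Nat.Prime i) := hlog'.trans_le hle
  have hh : 0 < h := lt_trans (mul_pos hc' (mul_pos ht0 hlog)) hh1
  have hτν := hτ ν
  have hκ2 := hκ2 ν
  have hκ4 := hκ4 ν
  have hS' : Shw 1 L s (Q ν) ![W ν 1, W ν 0, W ν 2] ![-1, τ ν] (2 + 2 * τ ν) κ h (Nat.nth Nat.Prime i) :=
    shw_of_shapeW (hS.mono hh.le (hR ν) le_rfl)
  obtain ⟨k1, k2, k3, k4, k5, k6⟩ := three_shw (r := ![W ν 1, W ν 0, W ν 2]) hκ (by linarith) (by linarith)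
    (by linarith) (by linarith) hh hS'
  have r0 : (![W ν 1, W ν 0, W ν 2] : Fin 3 → ℕ) 0 = W ν 1 := rfl
  have r1 : (![W ν 1, W ν 0, W ν 2] : Fin 3 → ℕ) 1 = W ν 0 := rfl
  have r2 : (![W ν 1, W ν 0, W ν 2] : Fin 3 → ℕ) 2 = W ν 2 := rfl
  rw [r1] at k2
  rw [r0] at k3
  rw [r2] at k4
  refine ⟨k1, ν, ?_⟩
  have ei : i - 1 + 1 = i := by omega
  rw [one_mul, abs_lt] at k5
  have hlog : 0 < t * Real.log (Nat.nth Nat.Prime i) := mul_pos ht0 hlog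
  have hlog' : 0 < t * Real.log (Nat.nth Nat.Prime (i - 1)) := mul_pos ht0 hlog'
  have hle : t * Real.log (Nat.nth Nat.Prime (i - 1)) ≤ t * Real.log (Nat.nth Nat.Prime i) :=
    mul_le_mul_of_nonneg_left hle ht0.le
  have hge : t * Real.log (Nat.nth Nat.Prime i) ≤ (1 + 1) * (t * Real.log (Nat.nth Nat.Prime (i - 1))) := by
    have h9 := mul_le_mul_of_nonneg_left hge ht0.le
    linarith
  generalize t * Real.log (Nat.nth Nat.Prime i) = l at hlog hle hge hh1 hh2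
  generalize t * Real.log (Nat.nth Nat.Prime (i - 1)) = l' at hlog' hle hge
  have hg0 : 3 / 4 * h ≤ (Pool.Agent.H82.LS.gap (i - 1) : ℝ) := by nlinarith [k5.1]
  have hg1 : (Pool.Agent.H82.LS.gap (i - 1) : ℝ) ≤ 5 / 4 * h := by nlinarith [k5.2]
  have hgp : 0 < (Pool.Agent.H82.LS.gap (i - 1) : ℝ) := by linarith
  refine ⟨?_, ?_, ?_, ?_⟩
  · rw [ei]
    have e1 : (Pool.Agent.H82.LS.gap i : ℝ) / Pool.Agent.H82.LS.gap (i - 1) - τ ν =
        ((Pool.Agent.H82.LS.gap i : ℝ) - τ ν * Pool.Agent.H82.LS.gap (i - 1)) / Pool.Agent.H82.LS.gap (i - 1) := by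
      field_simp
    rw [e1, abs_div, abs_of_pos hgp, div_lt_iff₀ hgp]
    have e2 : (Pool.Agent.H82.LS.gap i : ℝ) - τ ν * Pool.Agent.H82.LS.gap (i - 1) =
        ((Pool.Agent.H82.LS.gap i : ℝ) - τ ν * h) - τ ν * ((Pool.Agent.H82.LS.gap (i - 1) : ℝ) - h) := by ring
    have e3 : |(Pool.Agent.H82.LS.gap (i - 1) : ℝ) - h| ≤ κ * h := by
      rw [abs_le]
      constructor
      · linarith [k5.1]
      · linarith [k5.2]
    rw [e2]
    calc |((Pool.Agent.H82.LS.gap i : ℝ) - τ ν * h) - τ ν * ((Pool.Agent.H82.LS.gap (i - 1) : ℝ) - h)|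
        ≤ |(Pool.Agent.H82.LS.gap i : ℝ) - τ ν * h| + |τ ν * ((Pool.Agent.H82.LS.gap (i - 1) : ℝ) - h)| :=
          abs_sub _ _
      _ = |(Pool.Agent.H82.LS.gap i : ℝ) - τ ν * h| + τ ν * |(Pool.Agent.H82.LS.gap (i - 1) : ℝ) - h| := by
          rw [abs_mul, abs_of_pos hτν]
      _ < κ * h + τ ν * (κ * h) := add_lt_add_of_lt_of_le k6 (mul_le_mul_of_nonneg_left e3 hτν.le)
      _ = κ * (4 * (1 + τ ν)) * (h / 4) := by ring
      _ ≤ e * (h / 4) := mul_le_mul_of_nonneg_right hκ4 (by positivity)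
      _ ≤ e * Pool.Agent.H82.LS.gap (i - 1) := mul_le_mul_of_nonneg_left (by linarith) he.le
  · nlinarith
  · nlinarith
  · intro j
    fin_cases j
    · exact k2
    · show Nat.nth Nat.Prime (i - 1 + 1) ≡ s [MOD L] ∧ Nat.nth Nat.Prime (i - 1 + 1) ≡ W ν 1 [MOD Q ν]
      rw [ei]
      exact k3
    · show Nat.nth Nat.Prime (i - 1 + 2) ≡ s [MOD L] ∧ Nat.nth Nat.Prime (i - 1 + 2) ≡ W ν 2 [MOD Q ν]
      rw [show i - 1 + 2 = i + 1 by omega]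
      exact k4

/-- clause (3) -/
theorem thm3 : ∃ D : ℕ, ∀ L s : ℕ, 0 < L → Nat.Coprime s L → ∀ Q : Fin 200 → ℕ, (∀ i, 0 < Q i) →
    (∀ i, Nat.Coprime (Q i) L) → (∀ i j, i ≠ j → Nat.Coprime (Q i) (Q j)) →
    ∀ W : Fin 200 → Fin 3 → ℕ, (∀ i j, Nat.Coprime (W i j) (Q i)) →
    ∀ (τ : Fin 200 → ℝ) (e : ℝ), (∀ i, 0 < τ i) → 0 < e → ∃ c : ℝ, 0 < c ∧ LowerS D (fun t n =>
      ∃ i, |(Pool.Agent.H82.LS.gap (n + 1) : ℝ) / Pool.Agent.H82.LS.gap n - τ i| < e ∧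
      c * (t * Real.log (Nat.nth Nat.Prime n)) < (Pool.Agent.H82.LS.gap n : ℝ) ∧
      (Pool.Agent.H82.LS.gap n : ℝ) < e * (t * Real.log (Nat.nth Nat.Prime n)) ∧
      ∀ j : Fin 3, Nat.nth Nat.Prime (n + (j : ℕ)) ≡ s [MOD L] ∧
        Nat.nth Nat.Prime (n + (j : ℕ)) ≡ W i j [MOD Q i]) := by
  obtain ⟨D, hD⟩ := shape_finS 2 1 1 one_le_two le_rfl
  refine ⟨D, fun L s hL hs Q hQ hQL hQQ W hW τ e hτ he => ?_⟩
  obtain ⟨κ, hκ, hκS⟩ := exists_small (univ : Finset (Fin 200)) (fun i => tol (τ i) e)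
    (fun i _ => tol_pos (hτ i) he)
  have hκi : ∀ i, κ ≤ tol (τ i) e := fun i => (hκS i (mem_univ i)).le
  have hκ1 : κ ≤ 1 / 4 := (hκi 0).trans ((min_le_left _ _).trans (min_le_left _ _))
  have hκ2 : ∀ i, κ ≤ τ i / 4 := fun i => (hκi i).trans ((min_le_left _ _).trans (min_le_right _ _))
  have hκ3 : κ ≤ e / 4 := (hκi 0).trans ((min_le_right _ _).trans (min_le_left _ _))
  have hκ4 : ∀ i, κ * (4 * (1 + τ i)) ≤ e := by
    intro i
    have h5 : κ ≤ e / (4 * (1 + τ i)) := (hκi i).trans ((min_le_right _ _).trans (min_le_right _ _))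
    have h6 := hτ i
    rwa [le_div_iff₀ (by positivity)] at h5
  obtain ⟨R, hRd⟩ : ∃ R : ℝ, R = ∑ i, (2 + 2 * τ i) := ⟨_, rfl⟩
  have hR : ∀ i, 2 + 2 * τ i ≤ R := fun i => by
    rw [hRd]
    exact Finset.single_le_sum (f := fun i => 2 + 2 * τ i) (fun j _ => by have := hτ j; positivity) (mem_univ i)
  have hR0 : 0 < R := lt_of_lt_of_le (by have := hτ 0; positivity) (hR 0)
  obtain ⟨c, hc, h⟩ := hD L s hL hs (fun _ => (0 : Fin 1)) Q hQ hQL hQQ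
    (fun i => ![W i 1, W i 0, W i 2]) (fun i j => by
      fin_cases j
      · exact hW i 1
      · exact hW i 0
      · exact hW i 2) (fun i => ![-1, τ i]) R κ hR0 (fun i j => by
      have h1 := hτ i
      have h2 := hR i
      fin_cases j
      · show |(-1 : ℝ)| ≤ R
        rw [abs_neg, abs_one]
        linarith
      · show |τ i| ≤ R
        rw [abs_of_pos h1]
        linarith) hκ
  exact ⟨c / 2, by positivity, ratio_shift hτ he hc hκ hκ1 hκ2 hκ3 hκ4 hR h⟩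

end Pool.Agent.H62.AS
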