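import Pool.Agent.H62.AS.Main

/-!
# [H62 AS Shp] Every shape occurs near every scale, uniformly

`shape_genS`: `T = 100 r (k + K - 1)` pairwise coprime moduli `Q i` prime to `L`, words `w i` modulo `Q i`, shapes `x i` in
`[-R, R] ^ k`, an `r`-colouring `χ` and `e > 0`: there are `c' > 0`, `d > 0` and `B` such that for ALL `M` and all
`t ≤ 1` with `t log M ≥ B` for at least `d t ^ D M` of the `n < M` the primes near `p_n` have for some `i < T`, some colour and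
some `h` between `c' t log p_n` and `e t log p_n` the shape `x i`, with the classes `w i` modulo `Q i`, at the scale `h`;
`D` depends only on `k, K, r`.
`shape_allS`: the case `r = 1`, `Q i = 1`, one shape `x`.
-/

set_option autoImplicit false

namespace Pool.Agent.H62.AS

open Filter Finset Pool.Agent.H82.LS Pool.Agent.H62.VK Pool.Agent.H34.RC Pool.Agent.H62.VW Pool.Agent.H19.AS

theorem shape_rescale {k r : ℕ} {K L s Q : ℕ} {w : Fin (k + 1) → ℕ} {χ : ℕ → Fin r} {q : Fin r} {x : Fin k → ℝ}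
    {v R l e : ℝ} {p : ℕ} (h : ShapeW K L s Q w χ q (fun j => v * x j) (v * R) l (v * e) p) :
    ShapeW K L s Q w χ q x R (v * l) e p := by
  obtain ⟨h1, h2, h3⟩ := h
  have e1 : ∀ j, x j * (v * l) = v * x j * l := fun j => by ring
  have e2 : e * (v * l) = v * e * l := by ring
  have e3 : R * (v * l) = v * R * l := by ring
  refine ⟨h1, fun p' hp hpp hd => ?_, fun j => ?_⟩
  · rw [e3] at hd
    obtain ⟨h5, j, h6, hj⟩ := h2 p' hp hpp hd
    exact ⟨h5, j, h6, by rw [e1, e2]; exact hj⟩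
  · obtain ⟨Z, hZ, hZ2⟩ := h3 j
    refine ⟨Z, hZ, fun p' hp => ?_⟩
    obtain ⟨a1, a2, a3, a4, a5, a6⟩ := hZ2 p' hp
    exact ⟨a1, a2, a3, a4, a5, by rw [e1, e2]; exact a6⟩

/-- a positive number below finitely many positive numbers -/
theorem exists_small {ι : Type} (S : Finset ι) (f : ι → ℝ) (hf : ∀ b ∈ S, 0 < f b) :
    ∃ c : ℝ, 0 < c ∧ ∀ b ∈ S, c < f b := by
  classical
  induction S using Finset.induction_on with
  | empty => exact ⟨1, one_pos, fun b hb => absurd hb (Finset.notMem_empty b)⟩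
  | insert b S hb ih =>
    obtain ⟨c, hc, h⟩ := ih fun b' hb' => hf b' (mem_insert_of_mem hb')
    have h1 := hf b (mem_insert_self b S)
    refine ⟨min c (f b / 2), lt_min hc (by positivity), fun b' hb' => ?_⟩
    rcases mem_insert.1 hb' with h2 | h2
    · subst h2
      exact (min_le_right _ _).trans_lt (by linarith)
    · exact (min_le_left _ _).trans_lt (h b' h2)

theorem shape_genS (hT : Pool.Agent.H34.AS.ThmS) (k K r : ℕ) (hk : 1 ≤ k) (hK : 1 ≤ K) :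
    ∃ D : ℕ, ∀ (L s : ℕ), 0 < L → Nat.Coprime s L → ∀ (χ : ℕ → Fin r)
      (Q : ℕ → ℕ), (∀ i, 0 < Q i) → (∀ i, Nat.Coprime (Q i) L) → (∀ i j, i ≠ j → Nat.Coprime (Q i) (Q j)) →
      ∀ W : ℕ → Fin (k + 1) → ℕ, (∀ i j, Nat.Coprime (W i j) (Q i)) →
      ∀ (x : ℕ → Fin k → ℝ) (R e : ℝ), 0 < R → (∀ i j, |x i j| ≤ R) → 0 < e → ∃ c : ℝ, 0 < c ∧
        LowerS D (fun t n => ∃ i < 100 * r * (k + K - 1), ∃ (q : Fin r) (h : ℝ),
          c * (t * Real.log (Nat.nth Nat.Prime n)) < h ∧ h < e * (t * Real.log (Nat.nth Nat.Prime n)) ∧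
          ShapeW K L s (Q i) (W i) χ q (x i) R h e (Nat.nth Nat.Prime n)) := by
  classical
  obtain ⟨T, hTd⟩ : ∃ T : ℕ, T = 100 * r * (k + K - 1) := ⟨_, rfl⟩
  obtain ⟨m, f, -⟩ : ∃ (m : ℕ) (_ : Fin m ≃ Ndk k T), True := ⟨_, (Fintype.equivFin (Ndk k T)).symm, trivial⟩
  obtain ⟨D, hTS⟩ := hT m
  refine ⟨D, ?_⟩
  intro L s hL hs χ Q hQ hQL hQQ W hW1 x R e hR hx he
  rw [← hTd]
  have hr : 0 < r := (χ 0).pos
  have hr0 : (0 : ℝ) < r := by exact_mod_cast hr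
  obtain ⟨Dk, hDk⟩ : ∃ Dk : ℕ, Dk = k + K - 1 := ⟨_, rfl⟩
  have hD1 : 1 ≤ Dk := by omega
  have hD0 : (0 : ℝ) < Dk := by exact_mod_cast hD1
  have hDr : (k : ℝ) + K - 1 = Dk := by
    rw [hDk, Nat.cast_sub (by omega)]
    push_cast
    ring
  obtain ⟨w, hwd⟩ : ∃ w : ℝ, w = 1 / Dk := ⟨_, rfl⟩
  have hw0 : 0 ≤ w := by rw [hwd]; positivity
  have hw : w * (k + K - 1) = 1 := by
    rw [hDr, hwd]
    field_simp
  have hsum : 100 ≤ ∑ d, wtk k w T (f d) / r := by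
    rw [← Finset.sum_div, Equiv.sum_comp f (wtk k w T), sum_wtk hk, le_div_iff₀ hr0, hwd, mul_one_div,
      le_div_iff₀ hD0]
    have h1 : (100 * r * Dk : ℕ) ≤ T := by
      rw [hDk, hTd]
    exact_mod_cast h1
  obtain ⟨Q0, hQ0⟩ : ∃ Q0 : ℕ, Q0 = L * ∏ i ∈ range T, Q i := ⟨_, rfl⟩
  have hQ0pos : 0 < Q0 := by
    rw [hQ0]
    exact Nat.mul_pos hL (Finset.prod_pos fun i _ => hQ i)
  -- the classes of the cells
  have hlab : ∀ d : Fin m, ∀ i, Nat.Coprime (labk k W T (f d) i) (Q i) := fun d i =>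
    labk_prop (G := fun i a => Nat.Coprime a (Q i)) (fun i => Nat.coprime_one_left _)
      (fun i j => hW1 i j) T (f d) i
  have hρ := fun d : Fin m => exists_rho L s hs Q hQL hQQ (labk k W T (f d)) (hlab d) T
  choose ρ hρ1 hρ2 hρ3 using hρ
  obtain ⟨lam0, h0, -, hC⟩ := hTS (fun d => wtk k w T (f d) / r)
    (fun d => div_nonneg (wtk_nonneg hw0 _ _) hr0.le) hsum Q0 hQ0pos
  have hC := hC ρ (by rw [hQ0]; exact hρ3)
  obtain ⟨lam, hlamd⟩ : ∃ lam, lam = min lam0 (e * R) := ⟨_, rfl⟩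
  have hlam : 0 < lam := hlamd ▸ lt_min h0 (by positivity)
  have hlam0 : lam ≤ lam0 := hlamd ▸ min_le_left _ _
  have hlam1 : lam ≤ e * R := hlamd ▸ min_le_right _ _
  obtain ⟨Bad, hBad⟩ : ∃ Bad : ℕ → (Fin k → ℝ) → ℝ → ℝ → Prop, Bad = fun i x' c e' =>
      ∃ u : ℝ, 0 < u ∧ c = u * R ∧ (x' = fun j => u * x i j) ∧ 2 * e' ≤ u * e := ⟨_, rfl⟩
  have hanti : ∀ i x c e e', e' ≤ e → Bad i x c e → Bad i x c e' := by
    intro i x c e e' hee hb
    rw [hBad] at hb ⊢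
    obtain ⟨u, hu, h2, h3, h4⟩ := hb
    exact ⟨u, hu, h2, h3, by linarith⟩
  have hbad : ∀ i < T, ∀ c : ℝ, 0 < c → ∃ (x : Fin k → ℝ) (e : ℝ), (∀ j, |x j| ≤ c) ∧ 0 < e ∧ Bad i x c e := by
    intro i _ c hc
    have ht : 0 < c / R := by positivity
    refine ⟨fun j => c / R * x i j, c / R * e / 2, fun j => ?_, by positivity, ?_⟩
    · rw [abs_mul, abs_of_pos ht]
      calc c / R * |x i j| ≤ c / R * R := mul_le_mul_of_nonneg_left (hx i j) ht.le
        _ = c := by field_simp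
    · rw [hBad]
      exact ⟨c / R, ht, by field_simp, rfl, by linarith⟩
  obtain ⟨lo, hi, S, hS, htree⟩ := treel_bad r hk hw0 hw W T Bad hanti hbad T le_rfl 1 one_pos
  have htree' := htree.reindex f
  obtain ⟨δ, θ, T', H0, hδ, hθ, hT', hxx⟩ := hC (fun i => lo (f i)) (fun i => hi (f i)) htree'.1 htree'.2.1
  have hQ0i : ∀ i < T, Q i ∣ Q0 := fun i hi => by
    rw [hQ0]
    exact (dvd_prod_of_mem Q (mem_range.2 hi)).trans (Dvd.intro_left _ rfl)
  have hlow := lower_shapeS hr L s Q0 Q W ρ (fun d => labk k W T (f d)) _ _ (fun d => wtk k w T (f d)) S htree'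
    (fun p hp => ⟨(hS p hp).1, (hS p hp).2.1, (hS p hp).2.2.2.1, (hS p hp).2.2.2.2.1⟩)
    (by rw [hQ0]; exact Dvd.intro _ rfl) hρ1 hQ0i hρ2 χ lam δ θ T' H0 hlam hδ hθ hT' (by
      filter_upwards [hxx, eventually_gt_atTop (1 : ℝ)] with y hy hy1 H h1 h2
      exact hy H h1 (h2.trans (mul_le_mul_of_nonneg_right hlam0 (Real.log_pos hy1).le)))
  obtain ⟨c, hc, hcS⟩ := exists_small S (fun b => lam * (b.2.2.1 / 2) / R) (fun b hb => by
    have := (hS b hb).2.1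
    positivity)
  refine ⟨c, hc, ?_⟩
  obtain ⟨d, B, hd, hlow⟩ := hlow
  refine ⟨d, max B 1, hd, fun M t ht hB => ?_⟩
  have ht0 : 0 < t := pos_of_scale one_pos ((le_max_right _ _).trans hB)
  refine (hlow M t ht ((le_max_left _ _).trans hB)).trans (Nat.cast_le.2 (Set.ncard_le_ncard ?_
    ((Set.finite_lt_nat M).subset fun n hn => hn.1)))
  rintro n ⟨hn, b, hb, hconf⟩
  have hbS := (mem_product.1 hb).1
  obtain ⟨hbT, hb1, hb2, hb3, hb4, hb5⟩ := hS b.1 hbS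
  rw [hBad] at hb5
  obtain ⟨u, hu, hc1, hx1, he1⟩ := hb5
  have hl : 0 < t * Real.log (Nat.nth Nat.Prime n) :=
    mul_pos ht0 (Real.log_pos (by exact_mod_cast (Nat.prime_nth_prime n).one_lt))
  refine ⟨hn, b.1.1, hbT, b.2, lam * u * (t * Real.log (Nat.nth Nat.Prime n)), ?_, ?_, ?_⟩
  · refine mul_lt_mul_of_pos_right ?_ hl
    have h2 := hcS b.1 hbS
    have h3 : lam * (b.1.2.2.1 / 2) / R = lam * u := by
      rw [hc1]
      field_simp
    exact h2.trans_eq h3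
  · refine mul_lt_mul_of_pos_right ?_ hl
    have h2 : u * R ≤ 1 / 2 := by linarith
    have h3 : lam * u ≤ e * R * u := mul_le_mul_of_nonneg_right hlam1 hu.le
    have h4 : e * (u * R) ≤ e * (1 / 2) := mul_le_mul_of_nonneg_left h2 he.le
    linarith
  · have h2 : (fun j => lam * b.1.2.1 j) = fun j => lam * u * x b.1.1 j := by
      rw [hx1]
      funext j
      ring
    have h3 : lam * (b.1.2.2.1 / 2) = lam * u * R := by
      rw [hc1]
      ring
    rw [h2, h3] at hconf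
    refine shape_rescale (hconf.mono hl.le le_rfl ?_)
    have h4 : lam * (2 * b.1.2.2.2) ≤ lam * (u * e) := mul_le_mul_of_nonneg_left he1 hlam.le
    linarith

/-- one shape, no classes, one colour -/
theorem shape_allS (hT : Pool.Agent.H34.AS.ThmS) (k K : ℕ) (hk : 1 ≤ k) (hK : 1 ≤ K) :
    ∃ D : ℕ, ∀ (L s : ℕ), 0 < L → Nat.Coprime s L → ∀ (x : Fin k → ℝ) (R e : ℝ), 0 < R →
      (∀ j, |x j| ≤ R) → 0 < e → ∃ c : ℝ, 0 < c ∧ LowerS D (fun t n =>
        ∃ h : ℝ, c * (t * Real.log (Nat.nth Nat.Prime n)) < h ∧ h < e * (t * Real.log (Nat.nth Nat.Prime n)) ∧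
          ShapeW K L s 1 (fun _ => 1) (fun _ => (0 : Fin 1)) 0 x R h e (Nat.nth Nat.Prime n)) := by
  obtain ⟨D, hD⟩ := shape_genS hT k K 1 hk hK
  refine ⟨D, fun L s hL hs x R e hR hx he => ?_⟩
  obtain ⟨c, hc, d, B, hd, h⟩ := hD L s hL hs (fun _ => (0 : Fin 1)) (fun _ => 1) (fun _ => one_pos)
    (fun _ => Nat.coprime_one_left _) (fun _ _ _ => Nat.coprime_one_left _) (fun _ _ => 1)
    (fun _ _ => Nat.coprime_one_left _) (fun _ => x) R e hR (fun _ => hx) he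
  refine ⟨c, hc, d, B, hd, fun M t ht hB => (h M t ht hB).trans (Nat.cast_le.2 (Set.ncard_le_ncard ?_
    ((Set.finite_lt_nat M).subset fun n hn => hn.1)))⟩
  rintro n ⟨hn, i, -, q, l, h1, h2, h3⟩
  have hq : q = 0 := Subsingleton.elim _ _
  rw [hq] at h3
  exact ⟨hn, l, h1, h2, h3⟩

end Pool.Agent.H62.AS
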