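import Pool.Agent.H62.VW.Tl

/-!
# [H62 AS Tsc] The tree with prescribed scales

`treel_scale`: as `treel_bad`, but the pattern of the level `i` is `u i * x i` with the radius `2 u i` and the error
`e * u i`, for prescribed `u 0 ≪ u 1 ≪ ...` and arbitrary `x i` in `[-1, 1] ^ k`.
-/

set_option autoImplicit false

namespace Pool.Agent.H62.AS

open Filter Finset Pool.Agent.H82.LS Pool.Agent.H62.VK Pool.Agent.H62.VW

/-- the patterns of the tree with prescribed scales -/
def ScaleSet {k : ℕ} (u : ℕ → ℝ) (x : ℕ → Fin k → ℝ) (e : ℝ) (n : ℕ) : Set (ℕ × Cf k) :=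
  {p | ∃ i < n, p = (i, (fun j => u i * x i j), 2 * u i, e * u i)}

theorem treel_scale {k K : ℕ} (r : ℕ) (hk : 1 ≤ k) {w : ℝ} (hw0 : 0 ≤ w) (hw : w * (k + K - 1) = 1)
    (W : ℕ → Fin (k + 1) → ℕ) (x : ℕ → Fin k → ℝ) (hx : ∀ i j, |x i j| ≤ 1) (u : ℕ → ℝ) {e : ℝ} (he : 0 < e)
    (he1 : e ≤ 1) (n : ℕ) (hu : ∀ i < n, 0 < u i)
    (hsep : ∀ i, i + 1 < n → 96 * ((k : ℝ) + 1) * u i ≤ e * u (i + 1)) :
    ∀ c : ℝ, 0 < c → (∀ i, i + 1 = n → 16 * u i ≤ c) → ∃ lo hi : Ndk k n → ℝ,
      IsTl r K n w W (labk k W n) lo hi (wtk k w n) c (ScaleSet u x e n) := by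
  classical
  induction n with
  | zero =>
    intro c _ _
    exact ⟨fun j => Empty.elim j, fun j => Empty.elim j, treel_empty r K 0 w c W _⟩
  | succ n ih =>
    intro c hc hc16
    obtain ⟨d, hd⟩ : ∃ d, d = u n := ⟨_, rfl⟩
    have hd0 : 0 < d := hd ▸ hu n (Nat.lt_succ_self n)
    have hdc : 16 * d ≤ c := hd ▸ hc16 n rfl
    have hed : e * d ≤ d := by nlinarith
    have hed0 : 0 < e * d := by positivity
    have hk1 : (0 : ℝ) < (k : ℝ) + 1 := by positivity
    obtain ⟨η, hηd⟩ : ∃ η, η = e * d / (6 * (k + 1)) := ⟨_, rfl⟩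
    have hη : 0 < η := by rw [hηd]; positivity
    have hη1 : 3 * η * (k + 1) = e * d / 2 := by
      rw [hηd]
      field_simp
      norm_num
    have hkr : (1 : ℝ) ≤ k := by exact_mod_cast hk
    have hη2 : η ≤ e * d / 12 := by
      have h1 : η * 2 ≤ η * (k + 1) := mul_le_mul_of_nonneg_left (by linarith) hη.le
      nlinarith
    have hxd : ∀ j, |d * x n j| ≤ d := fun j => by
      rw [abs_mul, abs_of_pos hd0]
      calc d * |x n j| ≤ d * 1 := mul_le_mul_of_nonneg_left (hx n j) hd0.le
        _ = d := mul_one d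
    obtain ⟨x', hx1, hx2, hx3⟩ := perturb (fun j => d * x n j) hη
    rw [hη1] at hx1
    obtain ⟨lo, hi, htree⟩ := ih (fun i hi => hu i (by omega)) (fun i hi => hsep i (by omega)) η hη (by
      intro i hi
      have h1 := hsep i (by omega)
      rw [hi, ← hd] at h1
      rw [hηd, le_div_iff₀ (by positivity)]
      linarith)
    have hxb : ∀ j, |x' j| ≤ 2 * d := by
      intro j
      have h1 := hx1 j
      have h2 := hxd j
      have h3 : |x' j| ≤ |x' j - d * x n j| + |d * x n j| := by
        have := abs_add_le (x' j - d * x n j) (d * x n j)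
        rwa [sub_add_cancel] at this
      linarith
    refine ⟨klo lo (4 * d) (fun j => 4 * d + x' j), khi hi (4 * d) η (fun j => 4 * d + x' j), ?_⟩
    have hS : insert ((n : ℕ), ((fun j => d * x n j), 2 * d, e * d)) (ScaleSet u x e n) ⊆
        ScaleSet u x e (n + 1) := by
      intro p hp
      rcases Set.mem_insert_iff.1 hp with rfl | ⟨i, hi, rfl⟩
      · exact ⟨n, Nat.lt_succ_self n, by rw [hd]⟩
      · exact ⟨i, by omega, rfl⟩
    refine IsTl.mono ?_ le_rfl hS
    refine joinl r n hk hw0 hw W (labk k W n) lo hi (wtk k w n) η (4 * d) c (2 * d) (e * d) _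
      (fun j => d * x n j) (ScaleSet u x e n) hη htree (by positivity) (by linarith) ?_ ?_ ?_ ?_ ?_ (by linarith)
      (by linarith)
    · intro i
      have h1 := abs_le.1 (hxb i)
      linarith [h1.1]
    · intro i
      have h1 := abs_le.1 (hxb i)
      linarith [h1.2]
    · intro i j hij
      have h1 := hx3 i j hij
      rcases le_abs.1 h1 with h2 | h2
      · right
        linarith
      · left
        linarith
    · intro i
      have h1 := hx2 i
      rcases le_abs.1 h1 with h2 | h2
      · right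
        linarith
      · left
        linarith
    · intro i
      have h1 := hx1 i
      rw [show 4 * d + x' i - 4 * d - d * x n i = x' i - d * x n i by ring]
      linarith

end Pool.Agent.H62.AS
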