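import Pool.Agent.H62.AS.Uni

/-!
# [H62 AS Unf] `shape_uniS` for finite families
-/

set_option autoImplicit false

namespace Pool.Agent.H62.AS

open Filter Finset Pool.Agent.H82.LS Pool.Agent.H62.VK Pool.Agent.H34.RC Pool.Agent.H62.VW Pool.Agent.H19.AS

theorem uni_fin (k K r : ℕ) (hk : 1 ≤ k) (hK : 1 ≤ K) :
    ∃ D : ℕ, ∀ (L s : ℕ), 0 < L → Nat.Coprime s L → ∀ (χ : ℕ → Fin r)
      (Q : Fin (100 * r * (k + K - 1)) → ℕ), (∀ i, 0 < Q i) → (∀ i, Nat.Coprime (Q i) L) →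
      (∀ i j, i ≠ j → Nat.Coprime (Q i) (Q j)) →
      ∀ e : ℝ, 0 < e → ∃ C : ℝ, 1 ≤ C ∧ ∀ l : Fin (100 * r * (k + K - 1)) → ℝ, (∀ i, 0 < l i) →
        (∀ i, C * l i ≤ 1) → (∀ i j, i < j → C * l i ≤ l j) →
      ∀ W : Fin (100 * r * (k + K - 1)) → Fin (k + 1) → ℕ, (∀ i j, Nat.Coprime (W i j) (Q i)) →
      ∀ x : Fin (100 * r * (k + K - 1)) → Fin k → ℝ, (∀ i j, |x i j| ≤ 1) →
        LowerS D (fun t n => ∃ (i : Fin (100 * r * (k + K - 1))) (q : Fin r),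
          ShapeW K L s (Q i) (W i) χ q (x i) 1 (l i * (t * Real.log (Nat.nth Nat.Prime n))) e
            (Nat.nth Nat.Prime n)) := by
  classical
  obtain ⟨D, hD⟩ := shape_uniS Pool.Agent.H34.AS.thmS k K r hk hK
  refine ⟨D, fun L s hL hs χ Q hQ hQL hQQ e he => ?_⟩
  generalize hT : 100 * r * (k + K - 1) = T at *
  obtain ⟨Qf, hQf⟩ : ∃ Qf : ℕ → ℕ, Qf = fun i => if h : i < T then Q ⟨i, h⟩ else 1 := ⟨_, rfl⟩
  have q1 : ∀ i (h : i < T), Qf i = Q ⟨i, h⟩ := fun i h => by rw [hQf]; exact dif_pos h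
  have q2 : ∀ i, ¬ i < T → Qf i = 1 := fun i h => by rw [hQf]; exact dif_neg h
  obtain ⟨C, hC1, hC⟩ := hD L s hL hs χ Qf
    (fun i => by
      by_cases h : i < T
      · rw [q1 i h]; exact hQ _
      · rw [q2 i h]; exact one_pos)
    (fun i => by
      by_cases h : i < T
      · rw [q1 i h]; exact hQL _
      · rw [q2 i h]; exact Nat.coprime_one_left _)
    (fun i j hij => by
      by_cases h : i < T
      · by_cases h' : j < T
        · rw [q1 i h, q1 j h']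
          exact hQQ _ _ (fun h3 => hij (Fin.mk.inj h3))
        · rw [q2 j h']; exact Nat.coprime_one_right _
      · rw [q2 i h]; exact Nat.coprime_one_left _) e he
  refine ⟨C, hC1, fun l hl hl1 hl2 W hW x hx => ?_⟩
  obtain ⟨lf, hlf⟩ : ∃ lf : ℕ → ℝ, lf = fun i => if h : i < T then l ⟨i, h⟩ else 0 := ⟨_, rfl⟩
  obtain ⟨Wf, hWf⟩ : ∃ Wf : ℕ → Fin (k + 1) → ℕ, Wf = fun i => if h : i < T then W ⟨i, h⟩ else fun _ => 1 :=
    ⟨_, rfl⟩
  obtain ⟨xf, hxf⟩ : ∃ xf : ℕ → Fin k → ℝ, xf = fun i => if h : i < T then x ⟨i, h⟩ else fun _ => 0 :=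
    ⟨_, rfl⟩
  have l1 : ∀ i (h : i < T), lf i = l ⟨i, h⟩ := fun i h => by rw [hlf]; exact dif_pos h
  have w1 : ∀ i (h : i < T), Wf i = W ⟨i, h⟩ := fun i h => by rw [hWf]; exact dif_pos h
  have w2 : ∀ i, ¬ i < T → Wf i = fun _ => 1 := fun i h => by rw [hWf]; exact dif_neg h
  have x1 : ∀ i (h : i < T), xf i = x ⟨i, h⟩ := fun i h => by rw [hxf]; exact dif_pos h
  have x2 : ∀ i, ¬ i < T → xf i = fun _ => 0 := fun i h => by rw [hxf]; exact dif_neg h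
  have h := hC lf
    (fun i hi => by rw [l1 i hi]; exact hl _)
    (fun i hi => by rw [l1 i hi]; exact hl1 _)
    (fun i hi => by
      rw [l1 i (by omega), l1 (i + 1) hi]
      exact hl2 _ _ (Fin.mk_lt_mk.2 (Nat.lt_succ_self i)))
    Wf
    (fun i j => by
      by_cases h : i < T
      · rw [q1 i h, w1 i h]; exact hW _ _
      · rw [q2 i h]; exact Nat.coprime_one_right _)
    xf
    (fun i j => by
      by_cases h : i < T
      · rw [x1 i h]; exact hx _ _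
      · rw [x2 i h, abs_zero]; exact zero_le_one)
  refine LowerS.mono h fun t _ n hn => ?_
  obtain ⟨i, hi, q, h3⟩ := hn
  rw [q1 i hi, w1 i hi, x1 i hi, l1 i hi] at h3
  exact ⟨⟨i, hi⟩, q, h3⟩

end Pool.Agent.H62.AS
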