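import Pool.Agent.H62.AS.Fin
import Pool.Agent.H62.AS.Tsc

/-!
# [H62 AS Uni] Shapes at prescribed separated scales

`shape_uniS`: `T = 100 r (k + K - 1)`; for `e > 0` there is `C` such that for all `l 0 ≪ l 1 ≪ ... ≪ l (T - 1) ≪ 1`
(each `C` times the one before), all words `W i` and shapes `x i` in `[-1, 1] ^ k`: at every scale the shape `x i` occurs,
for some `i`, exactly at the scale `l i t log p_n`.
-/

set_option autoImplicit false

namespace Pool.Agent.H62.AS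

open Filter Finset Pool.Agent.H82.LS Pool.Agent.H62.VK Pool.Agent.H34.RC Pool.Agent.H62.VW Pool.Agent.H19.AS

theorem shape_uniS (hT : Pool.Agent.H34.AS.ThmS) (k K r : ℕ) (hk : 1 ≤ k) (hK : 1 ≤ K) :
    ∃ D : ℕ, ∀ (L s : ℕ), 0 < L → Nat.Coprime s L → ∀ (χ : ℕ → Fin r)
      (Q : ℕ → ℕ), (∀ i, 0 < Q i) → (∀ i, Nat.Coprime (Q i) L) → (∀ i j, i ≠ j → Nat.Coprime (Q i) (Q j)) →
      ∀ e : ℝ, 0 < e → ∃ C : ℝ, 1 ≤ C ∧ ∀ l : ℕ → ℝ, (∀ i < 100 * r * (k + K - 1), 0 < l i) →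
        (∀ i < 100 * r * (k + K - 1), C * l i ≤ 1) →
        (∀ i, i + 1 < 100 * r * (k + K - 1) → C * l i ≤ l (i + 1)) →
      ∀ W : ℕ → Fin (k + 1) → ℕ, (∀ i j, Nat.Coprime (W i j) (Q i)) →
      ∀ x : ℕ → Fin k → ℝ, (∀ i j, |x i j| ≤ 1) →
        LowerS D (fun t n => ∃ i < 100 * r * (k + K - 1), ∃ q : Fin r,
          ShapeW K L s (Q i) (W i) χ q (x i) 1 (l i * (t * Real.log (Nat.nth Nat.Prime n))) e
            (Nat.nth Nat.Prime n)) := by
  classical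
  obtain ⟨T, hTd⟩ : ∃ T : ℕ, T = 100 * r * (k + K - 1) := ⟨_, rfl⟩
  obtain ⟨m, f, -⟩ : ∃ (m : ℕ) (_ : Fin m ≃ Ndk k T), True := ⟨_, (Fintype.equivFin (Ndk k T)).symm, trivial⟩
  obtain ⟨D, hTS⟩ := hT m
  refine ⟨D, ?_⟩
  intro L s hL hs χ Q hQ hQL hQQ e0 he0
  rw [← hTd]
  have hr : 0 < r := (χ 0).pos
  have hr0 : (0 : ℝ) < r := by exact_mod_cast hr
  obtain ⟨Dk, hDk⟩ : ∃ Dk : ℕ, Dk = k + K - 1 := ⟨_, rfl⟩
  have hD1 : 1 ≤ Dk := by omega
  have hD0 : (0 : ℝ) < Dk := by exact_mod_cast hD1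
  have hDr : (k : ℝ) + K - 1 = Dk := by
    rw [hDk, Nat.cast_sub (by omega)]
    push_cast
    ring
  obtain ⟨w, hwd⟩ : ∃ w : ℝ, w = 1 / Dk := ⟨_, rfl⟩
  have hw0 : 0 ≤ w := by rw [hwd]; positivity
  have hw : w * (k + K - 1) = 1 := by
    rw [hDr, hwd]
    field_simp
  have hsum : 100 ≤ ∑ d, wtk k w T (f d) / r := by
    rw [← Finset.sum_div, Equiv.sum_comp f (wtk k w T), sum_wtk hk, le_div_iff₀ hr0, hwd, mul_one_div,
      le_div_iff₀ hD0]
    have h1 : (100 * r * Dk : ℕ) ≤ T := by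
      rw [hDk, hTd]
    exact_mod_cast h1
  obtain ⟨Q0, hQ0⟩ : ∃ Q0 : ℕ, Q0 = L * ∏ i ∈ range T, Q i := ⟨_, rfl⟩
  have hQ0pos : 0 < Q0 := by
    rw [hQ0]
    exact Nat.mul_pos hL (Finset.prod_pos fun i _ => hQ i)
  obtain ⟨lam, hlam, -, hC⟩ := hTS (fun d => wtk k w T (f d) / r)
    (fun d => div_nonneg (wtk_nonneg hw0 _ _) hr0.le) hsum Q0 hQ0pos
  -- the error
  obtain ⟨e, hed⟩ : ∃ e, e = min e0 1 / 2 := ⟨_, rfl⟩
  have hmin : 0 < min e0 1 := lt_min he0 one_pos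
  have he : 0 < e := by rw [hed]; positivity
  have he1 : e ≤ 1 := by
    rw [hed]
    have := min_le_right e0 1
    linarith
  have h2e : 2 * e ≤ e0 := by
    rw [hed]
    have := min_le_left e0 1
    linarith
  have hk1 : (0 : ℝ) < (k : ℝ) + 1 := by positivity
  obtain ⟨C, hCd⟩ : ∃ C : ℝ, C = max 1 (max (16 / lam) (96 * ((k : ℝ) + 1) / e)) := ⟨_, rfl⟩
  have hC1 : 1 ≤ C := hCd ▸ le_max_left _ _
  have hC2 : 16 / lam ≤ C := hCd ▸ (le_max_left _ _).trans (le_max_right _ _)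
  have hC3 : 96 * ((k : ℝ) + 1) / e ≤ C := hCd ▸ (le_max_right _ _).trans (le_max_right _ _)
  refine ⟨C, hC1, fun l hl hl1 hl2 W hW1 x hx => ?_⟩
  -- the classes of the cells
  have hlab : ∀ d : Fin m, ∀ i, Nat.Coprime (labk k W T (f d) i) (Q i) := fun d i =>
    labk_prop (G := fun i a => Nat.Coprime a (Q i)) (fun i => Nat.coprime_one_left _)
      (fun i j => hW1 i j) T (f d) i
  have hρ := fun d : Fin m => exists_rho L s hs Q hQL hQQ (labk k W T (f d)) (hlab d) T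
  choose ρ hρ1 hρ2 hρ3 using hρ
  have hC := hC ρ (by rw [hQ0]; exact hρ3)
  -- the tree
  obtain ⟨u, hud⟩ : ∃ u : ℕ → ℝ, u = fun i => l i / lam := ⟨_, rfl⟩
  have hlu : ∀ i, lam * u i = l i := fun i => by
    rw [hud]
    field_simp
  have hu : ∀ i < T, 0 < u i := fun i hi => by
    rw [hud]
    exact div_pos (hl i hi) hlam
  have hsep : ∀ i, i + 1 < T → 96 * ((k : ℝ) + 1) * u i ≤ e * u (i + 1) := by
    intro i hi
    have h1 := hl2 i hi
    have h2 : 0 < u i := hu i (by omega)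
    rw [← hlu i, ← hlu (i + 1)] at h1
    have h3 : C * u i ≤ u (i + 1) := by
      by_contra hcon
      have h4 := mul_lt_mul_of_pos_left (not_le.1 hcon) hlam
      nlinarith
    rw [div_le_iff₀ he] at hC3
    calc 96 * ((k : ℝ) + 1) * u i ≤ C * e * u i := mul_le_mul_of_nonneg_right hC3 h2.le
      _ = e * (C * u i) := by ring
      _ ≤ e * u (i + 1) := mul_le_mul_of_nonneg_left h3 he.le
  have h16 : ∀ i, i + 1 = T → 16 * u i ≤ 1 := by
    intro i hi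
    have h1 := hl1 i (by omega)
    have h2 : 0 < u i := hu i (by omega)
    rw [← hlu i] at h1
    rw [div_le_iff₀ hlam] at hC2
    nlinarith
  obtain ⟨lo, hi, htree⟩ := treel_scale (K := K) r hk hw0 hw W x hx u he he1 T hu hsep 1 one_pos h16
  obtain ⟨S, hSd⟩ : ∃ S : Finset (ℕ × Cf k), S = (range T).image
      (fun i => ((i : ℕ), ((fun j => u i * x i j : Fin k → ℝ), 2 * u i, e * u i))) := ⟨_, rfl⟩
  have hSS : ScaleSet u x e T = (S : Set (ℕ × Cf k)) := by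
    rw [hSd]
    ext p
    simp only [ScaleSet, Set.mem_setOf_eq, coe_image, coe_range, Set.mem_image, Set.mem_Iio]
    exact ⟨fun ⟨i, h1, h2⟩ => ⟨i, h1, h2.symm⟩, fun ⟨i, h1, h2⟩ => ⟨i, h1, h2.symm⟩⟩
  rw [hSS] at htree
  have hS : ∀ p ∈ S, ∃ i < T, p = ((i : ℕ), ((fun j => u i * x i j : Fin k → ℝ), 2 * u i, e * u i)) := by
    intro p hp
    rw [hSd, mem_image] at hp
    obtain ⟨i, h1, h2⟩ := hp
    exact ⟨i, mem_range.1 h1, h2.symm⟩
  have htree' := htree.reindex f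
  obtain ⟨δ, θ, T', H0, hδ, hθ, hT', hxx⟩ := hC (fun i => lo (f i)) (fun i => hi (f i)) htree'.1 htree'.2.1
  have hQ0i : ∀ i < T, Q i ∣ Q0 := fun i hi => by
    rw [hQ0]
    exact (dvd_prod_of_mem Q (mem_range.2 hi)).trans (Dvd.intro_left _ rfl)
  have hlow := lower_shapeS hr L s Q0 Q W ρ (fun d => labk k W T (f d)) _ _ (fun d => wtk k w T (f d)) S htree'
    (fun p hp => by
      obtain ⟨i, hi, rfl⟩ := hS p hp
      have h1 := hu i hi
      refine ⟨hi, by show 0 < 2 * u i; positivity, by show 0 < e * u i; positivity, fun j => ?_⟩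
      show |u i * x i j| ≤ 2 * u i / 2
      rw [abs_mul, abs_of_pos h1]
      have h2 := mul_le_mul_of_nonneg_left (hx i j) h1.le
      linarith)
    (by rw [hQ0]; exact Dvd.intro _ rfl) hρ1 hQ0i hρ2 χ lam δ θ T' H0 hlam hδ hθ hT' hxx
  refine LowerS.mono hlow fun t ht n hn => ?_
  obtain ⟨b, hb, hconf⟩ := hn
  obtain ⟨i, hi, hbi⟩ := hS b.1 (mem_product.1 hb).1
  rw [hbi] at hconf
  have hlp : 0 ≤ t * Real.log (Nat.nth Nat.Prime n) :=
    mul_nonneg ht.le (Real.log_natCast_nonneg _)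
  have h1 : (fun j => lam * (u i * x i j)) = fun j => l i * x i j := by
    funext j
    rw [← mul_assoc, hlu]
  have h2 : lam * (2 * u i / 2) = l i * 1 := by
    rw [← hlu i]
    ring
  have h3 : 2 * lam * (e * u i) ≤ l i * e0 := by
    rw [← hlu i]
    have h4 : 0 < lam * u i := mul_pos hlam (hu i hi)
    calc 2 * lam * (e * u i) = lam * u i * (2 * e) := by ring
      _ ≤ lam * u i * e0 := mul_le_mul_of_nonneg_left h2e h4.le
  have h5 := hconf.mono hlp le_rfl h3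
  dsimp only at h5
  rw [h1, h2] at h5
  exact ⟨i, hi, b.2, shape_rescale h5⟩

end Pool.Agent.H62.AS
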